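import Pool.Agent.H504Z.CT.Rep

set_option autoImplicit false

namespace Pool.Agent.H504Z.CT

open FreeGroup

lemma om_expand (p p' w : P) : om p p' • w = om w p' • p + om p w • p' := by
  ext <;> simp [om] <;> ring

/-- Increments along a direction fixed by a parabolic family are mapped to parallel vectors. -/
lemma parallel (L : P → P) (K : ℝ) (hK : 0 ≤ K)
    (hL : ∀ u, ∃ u', ∀ x x', N u' (L x - L x') ≤ K * N u (x - x') ∧
      N u (x - x') ≤ K * N u' (L x - L x'))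
    (e w₀ : P) (hu : ∀ n : ℕ, ∃ u : F, ‖rb u⁻¹ e‖ ≤ 1 ∧ (n : ℝ) ≤ ‖rb u⁻¹ w₀‖)
    (x x' : P) (s s' : ℝ) : om (L (x + s • e) - L x) (L (x' + s' • e) - L x') = 0 := by
  by_contra hne
  set p := L (x + s • e) - L x with hp
  set p' := L (x' + s' • e) - L x' with hp'
  set w := L w₀ - L 0 with hw
  have hpos : 0 < |om p p'| := abs_pos.2 hne
  obtain ⟨n, hn⟩ := exists_nat_gt (K * (K * (|om w p'| * |s| + |om p w| * |s'|)) / |om p p'|)
  obtain ⟨u, hu1, hu2⟩ := hu n
  obtain ⟨u', h⟩ := hL u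
  have a1 := (h (x + s • e) x).1
  have a2 := (h (x' + s' • e) x').1
  have a3 := (h w₀ 0).2
  rw [add_sub_cancel_left, N_smul, ← hp] at a1
  rw [add_sub_cancel_left, N_smul, ← hp'] at a2
  rw [sub_zero, ← hw] at a3
  have a4 : |om p p'| * N u' w ≤ |om w p'| * N u' p + |om p w| * N u' p' := by
    rw [← N_smul, ← N_smul, ← N_smul, om_expand]; exact N_add _ _ _
  have c := inv_pos.2 (sc_pos u)
  have b1 : N u e ≤ (sc u)⁻¹ := by rw [N_eq]; nlinarith
  have b2 : (sc u)⁻¹ * n ≤ N u w₀ := by rw [N_eq]; gcongr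
  have b3 : N u' p ≤ K * (|s| * (sc u)⁻¹) := a1.trans (by gcongr)
  have b4 : N u' p' ≤ K * (|s'| * (sc u)⁻¹) := a2.trans (by gcongr)
  have b5 : |om p p'| * N u' w ≤ (K * (|om w p'| * |s| + |om p w| * |s'|)) * (sc u)⁻¹ := by
    calc _ ≤ |om w p'| * (K * (|s| * (sc u)⁻¹)) + |om p w| * (K * (|s'| * (sc u)⁻¹)) :=
          a4.trans (by gcongr)
      _ = _ := by ring
  rw [div_lt_iff₀ hpos] at hn
  have b6 : (sc u)⁻¹ * n * |om p p'| ≤ K * N u' w * |om p p'| :=
    mul_le_mul_of_nonneg_right (b2.trans a3) hpos.le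
  have b7 : K * (|om p p'| * N u' w) ≤
      K * ((K * (|om w p'| * |s| + |om p w| * |s'|)) * (sc u)⁻¹) := by gcongr
  have b8 := mul_lt_mul_of_pos_left hn c
  nlinarith

lemma rb_inv_pow_a (n : ℕ) (v : P) : rb (of true ^ n)⁻¹ v = (v.1 - 2 * n * v.2, v.2) := by
  induction n generalizing v with
  | zero => simp
  | succ n ih =>
    rw [pow_succ, mul_inv_rev, rb_mul, ih, rb_of_inv]
    simp [st]; ring

lemma rb_inv_pow_b (n : ℕ) (v : P) : rb (of false ^ n)⁻¹ v = (v.1, v.2 - 2 * n * v.1) := by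
  induction n generalizing v with
  | zero => simp
  | succ n ih =>
    rw [pow_succ, mul_inv_rev, rb_mul, ih, rb_of_inv]
    simp [st]; ring

lemma linear_of (L : P → P) (K : ℝ) (hK : 0 ≤ K) (h0 : L 0 = 0) (hs : Function.Surjective L)
    (hL : ∀ u, ∃ u', ∀ x x', N u' (L x - L x') ≤ K * N u (x - x') ∧
      N u (x - x') ≤ K * N u' (L x - L x')) :
    ∃ T : P →ₗ[ℝ] P, ∀ x, L x = T x := by
  have hn : ∀ n : ℕ, (n : ℝ) ≤ |2 * (n : ℝ)| := fun n => by
    have : (0 : ℝ) ≤ n := Nat.cast_nonneg n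
    rw [abs_of_nonneg (by linarith)]; linarith
  have p1 := parallel L K hK hL (1, 0) (0, 1) fun n => ⟨of true ^ n, by
    rw [rb_inv_pow_a]; simp, by
    rw [rb_inv_pow_a, norm_P]; refine le_max_of_le_left ?_; simpa using hn n⟩
  have p2 := parallel L K hK hL (0, 1) (1, 0) fun n => ⟨of false ^ n, by
    rw [rb_inv_pow_b]; simp, by
    rw [rb_inv_pow_b, norm_P]; refine le_max_of_le_right ?_; simpa using hn n⟩
  have p3 := parallel L K hK hL (2, 1) (1, 0) fun n => ⟨of true * of false ^ n, by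
    rw [mul_inv_rev, rb_mul, rb_of_inv, rb_inv_pow_b]; simp [st], by
    rw [mul_inv_rev, rb_mul, rb_of_inv, rb_inv_pow_b, norm_P]
    refine le_max_of_le_right ?_; simpa [st] using hn n⟩
  obtain ⟨u', hu'⟩ := hL 1
  have hinj : ∀ x, L x = 0 → x = 0 := by
    intro x hx
    have := (hu' x 0).2
    rw [hx, h0, sub_zero, sub_zero, N_zero, N_one, mul_zero] at this
    exact norm_le_zero_iff.1 this
  have hcont : Continuous L := by
    have : LipschitzWith (Real.toNNReal (bt (1⁻¹ * u').norm * K)) L := by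
      refine LipschitzWith.of_dist_le' fun x y => ?_
      rw [dist_eq_norm, dist_eq_norm, ← N_one (L x - L y), ← N_one (x - y), mul_assoc]
      refine (N_le (h := u') (le_refl _) _).trans ?_
      have := bt_pos (1⁻¹ * u').norm
      gcongr
      exact (hu' x y).1
    exact this.continuous
  set u₁ := L (1, 0) with hu₁
  set u₂ := L (0, 1) with hu₂
  have hu₁0 : u₁ ≠ 0 := fun h => by simpa using hinj _ h
  have hu₂0 : u₂ ≠ 0 := fun h => by simpa using hinj _ h
  have q1 : ∀ x y x' : ℝ, om (L (x', y) - L (x, y)) u₁ = 0 := by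
    intro x y x'
    have := p1 (x, y) 0 (x' - x) 1
    simpa [h0] using this
  have q2 : ∀ x y y' : ℝ, om (L (x, y') - L (x, y)) u₂ = 0 := by
    intro x y y'
    have := p2 (x, y) 0 (y' - y) 1
    simpa [h0] using this
  have q3 : ∀ x y s : ℝ, om (L (x + 2 * s, y + s) - L (x, y)) (L (2, 1)) = 0 := by
    intro x y s
    have := p3 (x, y) 0 s 1
    simpa [h0, mul_comm] using this
  have h00 : L (0, 0) = 0 := h0
  have hD : om u₁ u₂ ≠ 0 := by
    intro hD
    have all : ∀ v, om (L v) u₁ = 0 := by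
      rintro ⟨x, y⟩
      have a := q2 x 0 y
      have b := q1 0 0 x
      rw [h00, sub_zero] at b
      have c := om_expand (L (x, y) - L (x, 0)) u₁ u₂
      have d : om u₂ u₁ = 0 := by unfold om at hD ⊢; linarith
      rw [d, a, zero_smul, zero_smul, add_zero, smul_eq_zero] at c
      have c' := c.resolve_right hu₂0
      unfold om at b c' ⊢
      simp only [Prod.fst_sub, Prod.snd_sub] at c'
      linarith
    obtain ⟨v1, hv1⟩ := hs (1, 0)
    obtain ⟨v2, hv2⟩ := hs (0, 1)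
    have a := all v1
    have b := all v2
    rw [hv1] at a; rw [hv2] at b
    apply hu₁0
    unfold om at a b
    ext <;> simp at a b ⊢ <;> linarith
  set al : ℝ → ℝ := fun x => om (L (x, 0)) u₂ with hal
  set be : ℝ → ℝ := fun y => om u₁ (L (0, y)) with hbe
  have r1 : ∀ x y, om (L (x, y)) u₂ = al x := by
    intro x y
    have := q2 x 0 y
    simp only [hal]; unfold om at this ⊢
    simp only [Prod.fst_sub, Prod.snd_sub] at this; linarith
  have r2 : ∀ x y, om u₁ (L (x, y)) = be y := by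
    intro x y
    have := q1 0 y x
    simp only [hbe]; unfold om at this ⊢
    simp only [Prod.fst_sub, Prod.snd_sub] at this; linarith
  have rep : ∀ x y, om u₁ u₂ • L (x, y) = al x • u₁ + be y • u₂ := by
    intro x y; rw [om_expand u₁ u₂, r1, r2]
  have al0 : al 0 = 0 := by simp [hal, h00, om]
  have be0 : be 0 = 0 := by simp [hbe, h00, om]
  have be1 : be 1 = om u₁ u₂ := rfl
  have al2 : al 2 ≠ 0 := by
    intro h
    have := rep 2 0
    rw [h, be0, zero_smul, zero_smul, add_zero, smul_eq_zero] at this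
    have := hinj _ (this.resolve_left hD)
    simp at this
  have key : ∀ x y s, (al (x + 2 * s) - al x) * om u₁ u₂ = (be (y + s) - be y) * al 2 := by
    intro x y s
    have a := q3 x y s
    have e1 := rep (x + 2 * s) (y + s)
    have e2 := rep x y
    have e3 := rep 2 1
    rw [be1] at e3
    have b : om (om u₁ u₂ • L (x + 2 * s, y + s) - om u₁ u₂ • L (x, y)) (om u₁ u₂ • L (2, 1))
        = 0 := by
      have : om (om u₁ u₂ • L (x + 2 * s, y + s) - om u₁ u₂ • L (x, y)) (om u₁ u₂ • L (2, 1))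
          = om u₁ u₂ ^ 2 * om (L (x + 2 * s, y + s) - L (x, y)) (L (2, 1)) := by
        generalize om u₁ u₂ = D
        simp [om]; ring
      rw [this, a, mul_zero]
    rw [e1, e2, e3] at b
    have c : om (al (x + 2 * s) • u₁ + be (y + s) • u₂ - (al x • u₁ + be y • u₂))
        (al 2 • u₁ + om u₁ u₂ • u₂) = ((al (x + 2 * s) - al x) * om u₁ u₂
          - (be (y + s) - be y) * al 2) * om u₁ u₂ := by
      generalize al (x + 2 * s) = A1
      generalize al x = A2
      generalize be (y + s) = B1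
      generalize be y = B2
      generalize al 2 = A3
      simp [om]; ring
    rw [c, mul_eq_zero] at b
    linarith [b.resolve_right hD]
  have aladd : ∀ x t, al (x + t) = al x + al t := by
    intro x t
    have a := key x 0 (t / 2)
    have b := key 0 0 (t / 2)
    rw [show x + 2 * (t / 2) = x + t by ring] at a
    rw [show 0 + 2 * (t / 2) = t by ring, al0] at b
    have : (al (x + t) - al x - al t) * om u₁ u₂ = 0 := by linarith
    linarith [(mul_eq_zero.1 this).resolve_right hD]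
  have beadd : ∀ y s, be (y + s) = be y + be s := by
    intro y s
    have a := key 0 y s
    have b := key 0 0 s
    rw [zero_add s, be0] at b
    have : (be (y + s) - be y - be s) * al 2 = 0 := by linarith
    linarith [(mul_eq_zero.1 this).resolve_right al2]
  have hadd : ∀ v w, L (v + w) = L v + L w := by
    rintro ⟨x, y⟩ ⟨x', y'⟩
    apply smul_right_injective P hD
    simp only [Prod.mk_add_mk, smul_add]
    rw [rep, rep, rep, aladd, beadd, add_smul, add_smul]; abel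
  exact ⟨(AddMonoidHom.toRealLinearMap ⟨⟨L, h0⟩, hadd⟩ hcont).toLinearMap, fun _ => rfl⟩

def dt (T : P →ₗ[ℝ] P) : ℝ := om (T (1, 0)) (T (0, 1))

lemma om_map (T : P →ₗ[ℝ] P) (v w : P) : om (T v) (T w) = dt T * om v w := by
  have e : ∀ v : P, T v = v.1 • T (1, 0) + v.2 • T (0, 1) := by
    intro v
    rw [← map_smul, ← map_smul, ← map_add]; congr 1; ext <;> simp
  rw [e v, e w]
  simp [dt, om]; ring

lemma dt_le (T : P →ₗ[ℝ] P) (K : ℝ) (u u' : F)
    (h : ∀ v, N u' (T v) ≤ K * N u v) : |dt T| ≤ 2 * (K * (sc u' / sc u)) ^ 2 := by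
  have a : ∀ e : P, ‖e‖ = 1 → ‖rb u'⁻¹ (T (rb u e))‖ ≤ K * (sc u' / sc u) := by
    intro e he
    have := h (rb u e)
    rw [N_eq, N_eq, rb_inv_cancel, he, mul_one, inv_mul_le_iff₀ (sc_pos u')] at this
    refine this.trans (le_of_eq ?_)
    rw [div_eq_mul_inv]; ring
  have b := om_abs (rb u'⁻¹ (T (rb u (1, 0)))) (rb u'⁻¹ (T (rb u (0, 1))))
  rw [om_rb, om_map, om_rb, show om (1, 0) (0, 1) = 1 by simp [om], mul_one] at b
  have a1 := a (1, 0) (by simp)
  have a2 := a (0, 1) (by simp)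
  have := mul_le_mul a1 a2 (norm_nonneg _) ((norm_nonneg _).trans a1)
  nlinarith

section final

variable {G : Type*} [Group G] (T : G → P →ₗ[ℝ] P) (K : ℝ)

omit [Group G] in
lemma scalar_bound (hK : 0 < K)
    (h1 : ∀ γ u, ∃ u', ∀ v, N u' (T γ v) ≤ K * N u v ∧ N u v ≤ K * N u' (T γ v)) :
    ∃ C : ℝ, ∀ γ (μ : ℝ) (g : F), (∀ w, T γ w = μ • rb g w) → sc g ≤ C * |μ| ∧ |μ| ≤ C * sc g := by
  obtain ⟨m, hm⟩ := exists_nat_ge (4 * K ^ 2)
  refine ⟨K * (8 * 2 ^ m), fun γ μ g hT => ?_⟩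
  obtain ⟨u', hu'⟩ := h1 γ 1
  set k := u'⁻¹ * g with hk
  set θ := (sc u')⁻¹ * |μ| with hθ
  have e : ∀ v, N u' (T γ v) = θ * ‖rb k v‖ := by
    intro v
    rw [hT, N_smul, N_eq, ← rb_mul, hθ]; ring
  have hs := sc_pos u'
  have hθ0 : 0 ≤ θ := by positivity
  have i1 : IsInt (1, 0) := ⟨1, 0, by simp⟩
  have a1 : θ ≤ K := by
    have := (hu' (1, 0)).1
    rw [e, N_one] at this
    have b := one_le_rb k i1 (by simp)
    rw [show ‖((1, 0) : P)‖ = 1 by simp, mul_one] at this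
    nlinarith
  have a2 : 1 ≤ K * θ := by
    have := (hu' (rb k⁻¹ (1, 0))).2
    rw [e, N_one, rb_cancel_inv] at this
    have b := one_le_rb k⁻¹ i1 (by simp)
    rw [show ‖((1, 0) : P)‖ = 1 by simp, mul_one] at this
    linarith
  have a3 : (k.norm : ℝ) ≤ 4 * K ^ 2 := by
    refine norm_le_of_rb k _ fun v => ?_
    have := (hu' v).1
    rw [e, N_one] at this
    have n1 := norm_nonneg (rb k v)
    have n2 := norm_nonneg v
    calc ‖rb k v‖ ≤ K * θ * ‖rb k v‖ := by nlinarith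
      _ = K * (θ * ‖rb k v‖) := by ring
      _ ≤ K * (K * ‖v‖) := by gcongr
      _ = _ := by ring
  have a4 : k.norm ≤ m := by exact_mod_cast a3.trans hm
  have a5 : (2 : ℝ) ^ k.norm ≤ 2 ^ m := pow_le_pow_right₀ one_le_two a4
  have b1 := sc_le u' g
  have b2 := sc_le g u'
  rw [nrm_symm g u'] at b2
  rw [← hk] at b1 b2
  have hμ : |μ| = θ * sc u' := by rw [hθ]; field_simp
  have hg := sc_pos g
  constructor
  · calc sc g ≤ 8 * 2 ^ m * sc u' := b1.trans (by gcongr)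
      _ ≤ 8 * 2 ^ m * sc u' * (K * θ) := le_mul_of_one_le_right (by positivity) a2
      _ = _ := by rw [hμ]; ring
  · calc |μ| = θ * sc u' := hμ
      _ ≤ K * (8 * 2 ^ m * sc g) := by gcongr; exact b2.trans (by gcongr)
      _ = _ := by ring

lemma exists_power (hK : 0 < K) (hmul : ∀ γ δ x, T (γ * δ) x = T γ (T δ x))
    (hone : ∀ x, T 1 x = x)
    (h1 : ∀ γ u, ∃ u', ∀ v, N u' (T γ v) ≤ K * N u v ∧ N u v ≤ K * N u' (T γ v))
    (h2 : ∀ g, ∃ γ, ∀ v, N g (T γ v) ≤ K * ‖v‖ ∧ ‖v‖ ≤ K * N g (T γ v)) (s : Bool) :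
    ∃ (γ : G) (μ : ℝ) (n : ℕ), ∀ w, T γ w = μ • rb (of s ^ (n + 1)) w := by
  have hinv : ∀ γ x, T γ⁻¹ (T γ x) = x := fun γ x => by rw [← hmul, inv_mul_cancel, hone]
  have hinv' : ∀ γ x, T γ (T γ⁻¹ x) = x := fun γ x => by rw [← hmul, mul_inv_cancel, hone]
  have hdt : ∀ γ, dt (T γ) * dt (T γ⁻¹) = 1 := by
    intro γ
    have := om_map (T γ) (T γ⁻¹ (1, 0)) (T γ⁻¹ (0, 1))
    rw [hinv', hinv', show om (1, 0) (0, 1) = 1 by simp [om]] at this
    exact this.symm
  choose c hc using h2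
  set ε : ℝ := 1 / (2 * K ^ 3) with hε
  have hε0 : 0 < ε := by positivity
  obtain ⟨m, hm⟩ := exists_nat_ge (2 * K / ε)
  have sc1 : ∀ n : ℕ, sc (of s ^ n) = 1 := fun n => by simp [sc, phi_of_pow]
  have good : ∀ (n : ℕ) (e : P), IsInt e → ‖e‖ = 1 →
      ∃ q ∈ dirs m, ∃ t : ℝ, rb (of s ^ n)⁻¹ (T (c (of s ^ n)) e) = t • q := by
    intro n e he hn
    set g : F := of s ^ n with hg
    set γ := c g with hγ
    refine mem_dirs hε0 m _ (fun k => ?_) ?_
    · set u := g * k⁻¹ with hu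
      rw [← rb_mul, show k * g⁻¹ = u⁻¹ by rw [hu]; group]
      obtain ⟨u', hu'⟩ := h1 γ⁻¹ u
      have a1 := (hu' (T γ e)).1
      rw [hinv, N_eq, N_eq] at a1
      have a2 := one_le_rb u'⁻¹ he (by rintro rfl; simp at hn)
      have a3 := dt_le (T γ) K u' u fun v => by
        have := (hu' (T γ v)).2
        rwa [hinv] at this
      have a4 := dt_le (T γ⁻¹) K g 1 fun v => by
        have := (hc g (T γ⁻¹ v)).2
        rwa [← hγ, hinv', ← N_one] at this
      rw [sc_one, hg, sc1, div_one, mul_one] at a4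
      have su := sc_pos u
      have su' := sc_pos u'
      set r := sc u / sc u' with hr
      have hr0 : 0 < r := by positivity
      have a5 : 1 ≤ 2 * K ^ 2 * r := by
        have b : (1 : ℝ) = |dt (T γ)| * |dt (T γ⁻¹)| := by rw [← abs_mul, hdt, abs_one]
        have b2 := mul_le_mul a3 a4 (abs_nonneg _) (by positivity)
        have b3 : 1 ≤ (2 * K ^ 2 * r) ^ 2 := by nlinarith
        by_contra hlt
        push Not at hlt
        have : 0 < 2 * K ^ 2 * r := by positivity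
        nlinarith
      have a6 : r ≤ K * ‖rb u⁻¹ (T γ e)‖ := by
        have b : (sc u')⁻¹ ≤ K * ((sc u)⁻¹ * ‖rb u⁻¹ (T γ e)‖) :=
          le_trans (le_mul_of_one_le_right (by positivity) a2) a1
        calc r = sc u * (sc u')⁻¹ := by rw [hr, div_eq_mul_inv]
          _ ≤ sc u * (K * ((sc u)⁻¹ * ‖rb u⁻¹ (T γ e)‖)) := by gcongr
          _ = _ := by field_simp
      rw [hε, div_le_iff₀ (by positivity)]
      calc (1 : ℝ) ≤ 2 * K ^ 2 * r := a5
        _ ≤ 2 * K ^ 2 * (K * ‖rb u⁻¹ (T γ e)‖) := by gcongr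
        _ = _ := by ring
    · have a1 := (hc g e).1
      rw [N_eq, hg, sc1, inv_one, one_mul, hn, mul_one] at a1
      rw [div_le_iff₀ hε0] at hm
      rw [← hg] at a1
      linarith
  have i1 : IsInt (1, 0) := ⟨1, 0, by simp⟩
  have i2 : IsInt (0, 1) := ⟨0, 1, by simp⟩
  have i3 : IsInt (1, 1) := ⟨1, 1, by simp⟩
  choose q1 hq1 t1 ht1 using fun n => good n (1, 0) i1 (by simp)
  choose q2 hq2 t2 ht2 using fun n => good n (0, 1) i2 (by simp)
  choose q3 hq3 t3 ht3 using fun n => good n (1, 1) i3 (by simp)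
  have hfin := (dirs_finite m).prod ((dirs_finite m).prod (dirs_finite m))
  obtain ⟨n, n', hlt, heq⟩ := Set.Finite.exists_lt_map_eq_of_forall_mem
    (f := fun n : ℕ => (q1 n, q2 n, q3 n))
    (fun n => Set.mk_mem_prod (hq1 n) (Set.mk_mem_prod (hq2 n) (hq3 n))) hfin
  simp only [Prod.mk.injEq] at heq
  obtain ⟨e1, e2, e3⟩ := heq
  set h : ℕ → P →ₗ[ℝ] P := fun n => (rb (of s ^ n)⁻¹).toLinearMap ∘ₗ T (c (of s ^ n)) with hh
  have hh' : ∀ n v, h n v = rb (of s ^ n)⁻¹ (T (c (of s ^ n)) v) := fun _ _ => rfl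
  have sum : ∀ n, t3 n • q3 n = t1 n • q1 n + t2 n • q2 n := by
    intro n
    rw [← ht1, ← ht2, ← ht3, ← map_add, ← map_add]; simp
  have hD : t1 n * t2 n * om (q1 n) (q2 n) ≠ 0 := by
    have a : om (h n (1, 0)) (h n (0, 1)) = dt (T (c (of s ^ n))) := by
      rw [hh', hh', om_rb]; rfl
    rw [hh', hh', ht1, ht2] at a
    have b : dt (T (c (of s ^ n))) ≠ 0 := left_ne_zero_of_mul_eq_one (hdt _)
    rw [← a] at b
    convert b using 1
    simp [om]; ring
  have hD' : om (q1 n) (q2 n) ≠ 0 := right_ne_zero_of_mul hD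
  have ht1n : t1 n ≠ 0 := left_ne_zero_of_mul (left_ne_zero_of_mul hD)
  have s1 := sum n
  have s2 := sum n'
  rw [← e1, ← e2, ← e3] at s2
  have c1 : t3 n * om (q3 n) (q2 n) = t1 n * om (q1 n) (q2 n) := by
    have := congrArg (fun z => om z (q2 n)) s1
    simp only [om, Prod.smul_fst, Prod.smul_snd, Prod.fst_add, Prod.snd_add, smul_eq_mul] at this ⊢
    linarith
  have c2 : t3 n * om (q1 n) (q3 n) = t2 n * om (q1 n) (q2 n) := by
    have := congrArg (fun z => om (q1 n) z) s1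
    simp only [om, Prod.smul_fst, Prod.smul_snd, Prod.fst_add, Prod.snd_add, smul_eq_mul] at this ⊢
    linarith
  have c3 : t3 n' * om (q3 n) (q2 n) = t1 n' * om (q1 n) (q2 n) := by
    have := congrArg (fun z => om z (q2 n)) s2
    simp only [om, Prod.smul_fst, Prod.smul_snd, Prod.fst_add, Prod.snd_add, smul_eq_mul] at this ⊢
    linarith
  have c4 : t3 n' * om (q1 n) (q3 n) = t2 n' * om (q1 n) (q2 n) := by
    have := congrArg (fun z => om (q1 n) z) s2
    simp only [om, Prod.smul_fst, Prod.smul_snd, Prod.fst_add, Prod.snd_add, smul_eq_mul] at this ⊢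
    linarith
  have ht3n : t3 n ≠ 0 := by
    intro h0
    rw [h0, zero_mul] at c1
    exact mul_ne_zero ht1n hD' c1.symm
  have d1 : t1 n' = t3 n' / t3 n * t1 n := by
    field_simp
    apply mul_right_cancel₀ hD'
    linear_combination t3 n' * c1 - t3 n * c3
  have d2 : t2 n' = t3 n' / t3 n * t2 n := by
    field_simp
    apply mul_right_cancel₀ hD'
    linear_combination t3 n' * c2 - t3 n * c4
  have hv : ∀ v, h n' v = (t3 n' / t3 n) • h n v := by
    intro v
    have e : ∀ k, h k v = v.1 • h k (1, 0) + v.2 • h k (0, 1) := by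
      intro k
      rw [← map_smul, ← map_smul, ← map_add]; congr 1; ext <;> simp
    rw [e, e, hh', hh', hh', hh', ht1, ht2, ht1, ht2, ← e1, ← e2, d1, d2]
    module
  obtain ⟨j, rfl⟩ := Nat.exists_eq_add_of_lt hlt
  refine ⟨c (of s ^ (n + j + 1)) * (c (of s ^ n))⁻¹, t3 (n + j + 1) / t3 n, j, fun w => ?_⟩
  have := hv (T (c (of s ^ n))⁻¹ w)
  rw [hh', hh', hinv'] at this
  rw [hmul, ← rb_cancel_inv (of s ^ (n + j + 1)) (T _ _), this, map_smul, ← rb_mul]
  congr 3
  rw [show n + j + 1 = (j + 1) + n by ring, pow_add]; group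

lemma lin_false (hK : 0 < K) (hmul : ∀ γ δ x, T (γ * δ) x = T γ (T δ x))
    (hone : ∀ x, T 1 x = x)
    (h1 : ∀ γ u, ∃ u', ∀ v, N u' (T γ v) ≤ K * N u v ∧ N u v ≤ K * N u' (T γ v))
    (h2 : ∀ g, ∃ γ, ∀ v, N g (T γ v) ≤ K * ‖v‖ ∧ ‖v‖ ≤ K * N g (T γ v)) : False := by
  obtain ⟨C, hC⟩ := scalar_bound T K hK h1
  have hpow : ∀ γ (μ : ℝ) (g : F), (∀ w, T γ w = μ • rb g w) →
      ∀ (k : ℕ) w, T (γ ^ k) w = μ ^ k • rb (g ^ k) w := by
    intro γ μ g h k
    induction k with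
    | zero => intro w; simp [hone]
    | succ k ih =>
      intro w
      rw [pow_succ, hmul, ih, h, map_smul, smul_smul, pow_succ, pow_succ, rb_mul]
  have hle : ∀ (s : Bool) γ (μ : ℝ) (n : ℕ), (∀ w, T γ w = μ • rb (of s ^ n) w) → |μ| ≤ 1 := by
    intro s γ μ n h
    by_contra hlt
    push Not at hlt
    obtain ⟨k, hk⟩ := pow_unbounded_of_one_lt C hlt
    have := (hC _ _ _ (hpow γ μ _ h k)).2
    rw [← pow_mul, sc, phi_of_pow, zpow_zero, mul_one, abs_pow] at this
    linarith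
  obtain ⟨γ, μ, n, hγ⟩ := exists_power T K hK hmul hone h1 h2 true
  obtain ⟨δ, ν, m, hδ⟩ := exists_power T K hK hmul hone h1 h2 false
  have a1 := hle _ _ _ _ hγ
  have a2 := hle _ _ _ _ hδ
  have hγδ : ∀ w, T (γ * δ) w = (μ * ν) • rb (of true ^ (n + 1) * of false ^ (m + 1)) w := by
    intro w
    rw [hmul, hδ, map_smul, hγ, smul_smul, rb_mul, mul_comm]
  obtain ⟨k, hk⟩ := pow_unbounded_of_one_lt |C| (one_lt_two (α := ℝ))
  have b1 := (hC _ _ _ (hpow _ _ _ hγδ k)).1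
  have b2 : (2 : ℝ) ^ k ≤ sc ((of true ^ (n + 1) * of false ^ (m + 1)) ^ k) := by
    rw [sc, ← zpow_natCast]
    exact zpow_le_zpow_right₀ one_le_two (phi_ab_pow n m k)
  have b3 : |(μ * ν) ^ k| ≤ 1 := by
    rw [abs_pow, abs_mul]
    exact pow_le_one₀ (by positivity) (mul_le_one₀ a1 (abs_nonneg _) a2)
  have b4 : C * |(μ * ν) ^ k| ≤ |C| := by
    have := le_abs_self C
    have := abs_nonneg C
    have := abs_nonneg ((μ * ν) ^ k)
    nlinarith
  linarith

end final

lemma bilip_false {G : Type*} [Group G] (L : G → P → P) (K : ℝ) (hK : 0 < K)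
    (hmul : ∀ γ δ x, L (γ * δ) x = L γ (L δ x)) (hone : ∀ x, L 1 x = x) (h0 : ∀ γ, L γ 0 = 0)
    (h1 : ∀ γ u, ∃ u', ∀ x x', N u' (L γ x - L γ x') ≤ K * N u (x - x') ∧
      N u (x - x') ≤ K * N u' (L γ x - L γ x'))
    (h2 : ∀ g, ∃ γ, ∀ x, N g (L γ x) ≤ K * ‖x‖ ∧ ‖x‖ ≤ K * N g (L γ x)) : False := by
  have hs : ∀ γ, Function.Surjective (L γ) := fun γ x =>
    ⟨L γ⁻¹ x, by rw [← hmul, mul_inv_cancel, hone]⟩
  choose T hT using fun γ => linear_of (L γ) K hK.le (h0 γ) (hs γ) (h1 γ)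
  refine lin_false T K hK (fun γ δ x => by rw [← hT, ← hT, ← hT, hmul])
    (fun x => by rw [← hT, hone]) (fun γ u => ?_) (fun g => ?_)
  · obtain ⟨u', hu'⟩ := h1 γ u
    refine ⟨u', fun v => ?_⟩
    have := hu' v 0
    rwa [h0, sub_zero, sub_zero, hT] at this
  · obtain ⟨γ, hγ⟩ := h2 g
    exact ⟨γ, fun v => by rw [← hT]; exact hγ v⟩

end Pool.Agent.H504Z.CT
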