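import Pool.Agent.H504Z.CT.Cover
import Pool.Agent.H504Z.CT.Lin

set_option autoImplicit false

namespace Pool.Agent.H504Z.CT

open FreeGroup Filter Topology

lemma chain (u u' : F) (Φ : P → P) (c : ℝ) (hc : 0 ≤ c)
    (h : ∀ x x', N u (x - x') ≤ 1 → N u' (Φ x - Φ x') ≤ c) (x x' : P) :
    N u' (Φ x - Φ x') ≤ c * N u (x - x') + c := by
  have key : ∀ n : ℕ, ∀ x x', N u (x - x') ≤ n + 1 → N u' (Φ x - Φ x') ≤ c * (n + 1) := by
    intro n
    induction n with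
    | zero => intro x x' h1; simpa using h x x' (by simpa using h1)
    | succ n ih =>
      intro x x' h1
      set t : ℝ := 1 / (n + 2) with ht
      have hn : (0 : ℝ) < n + 2 := by positivity
      have ht0 : 0 ≤ t := by positivity
      have ht1 : t * (n + 2) = 1 := by rw [ht]; field_simp
      push_cast at h1
      have a1 : N u (x - (x' + t • (x - x'))) ≤ n + 1 := by
        rw [show x - (x' + t • (x - x')) = (1 - t) • (x - x') by module, N_smul,
          abs_of_nonneg (by nlinarith)]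
        have : 0 ≤ 1 - t := by nlinarith
        nlinarith
      have a2 : N u ((x' + t • (x - x')) - x') ≤ 1 := by
        rw [add_sub_cancel_left, N_smul, abs_of_nonneg ht0]
        nlinarith
      have b1 := ih _ _ a1
      have b2 := h _ _ a2
      have := N_tri u' (Φ x) (Φ (x' + t • (x - x'))) (Φ x')
      push_cast; linarith
  have h0 := N_nonneg u (x - x')
  have := key ⌊N u (x - x')⌋₊ x x' (Nat.lt_floor_add_one _).le
  have := Nat.floor_le h0
  nlinarith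

lemma norm_le_N (g : F) (v : P) : ‖v‖ ≤ bt (1⁻¹ * g).norm * N g v := by
  rw [← N_one]; exact N_le le_rfl _

noncomputable def U : Ultrafilter ℕ := hyperfilter ℕ

lemma U_le : (U : Filter ℕ) ≤ atTop := Nat.hyperfilter_le_atTop

lemma tend_zero (a : ℕ → P) (B : ℝ) (h : ∀ n, ‖a n‖ ≤ B) :
    Tendsto (fun n : ℕ => ((n : ℝ) + 1)⁻¹ • a n) U (𝓝 0) := by
  refine Tendsto.mono_left ?_ U_le
  have h1 : Tendsto (fun n : ℕ => ((n : ℝ) + 1)⁻¹ * B) atTop (𝓝 0) := by
    have := tendsto_one_div_add_atTop_nhds_zero_nat (𝕜 := ℝ)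
    simpa using this.mul_const B
  refine squeeze_zero_norm (fun n => ?_) h1
  rw [norm_smul, Real.norm_eq_abs, abs_of_pos (by positivity)]
  gcongr
  exact h n

lemma exists_lim (a : ℕ → P) (B : ℝ) (h : ∀ n, ‖a n‖ ≤ B) : ∃ l, Tendsto a U (𝓝 l) := by
  obtain ⟨l, -, hl⟩ := (isCompact_closedBall (0 : P) B).ultrafilter_le_nhds (U.map a)
    (by rw [le_principal_iff, Ultrafilter.mem_coe, Ultrafilter.mem_map]
        exact univ_mem' fun n => mem_closedBall_zero_iff.2 (h n))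
  exact ⟨l, hl⟩

theorem action_false {d : V → V → ℕ} {E : ℕ → ℝ} (M : Model d E) {G : Type*} [Group G]
    (f : G → V → V) (K : ℕ) (hl : ∀ γ p q, d (f γ p) (f γ q) ≤ K * d p q + K)
    (hm : ∀ γ δ p, d (f γ (f δ p)) (f (γ * δ) p) ≤ K) (ho : ∀ p, d (f 1 p) p ≤ K)
    (hc : ∀ p, ∃ γ, d (f γ (1, 0)) p ≤ K) : False := by
  have hQ : ∀ γ, QPair d (2 * K) (f γ⁻¹) (f γ) := by
    intro γ
    have a : ∀ δ p q, d (f δ p) (f δ q) ≤ 2 * K * d p q + 2 * K := fun δ p q =>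
      (hl δ p q).trans (by gcongr <;> omega)
    refine ⟨a _, a _, fun p => ?_, fun p => ?_⟩
    · have h1 := hm γ γ⁻¹ p
      rw [mul_inv_cancel] at h1
      have := M.tri (f γ (f γ⁻¹ p)) (f 1 p) p
      have := ho p
      omega
    · have h1 := hm γ⁻¹ γ p
      rw [inv_mul_cancel] at h1
      have := M.tri (f γ⁻¹ (f γ p)) (f 1 p) p
      have := ho p
      omega
  obtain ⟨R, hR⟩ := fibre M (2 * K)
  set τ : G → F → F := fun γ u => (f γ (u, 0)).1 with hτ
  set Φ : G → F → P → P := fun γ u x => (f γ (u, x)).2 with hΦ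
  have hfp : ∀ γ u x, ((τ γ u)⁻¹ * (f γ (u, x)).1).norm ≤ R := fun γ u x =>
    hR _ _ (hQ γ) u 0 x
  obtain ⟨c, hc'⟩ : ∃ c, c = bt R * |E (K * 4 + K)| + 1 := ⟨_, rfl⟩
  have hbt := bt_pos R
  have hc0 : 0 < c := by rw [hc']; positivity
  have lipΦ : ∀ γ u x x', N (τ γ u) (Φ γ u x - Φ γ u x') ≤ c * N u (x - x') + c := by
    intro γ u
    refine chain u _ _ c hc0.le fun x x' h => ?_
    have h1 := M.m4 _ _ _ (lip_le (hl γ) (M.m2one u x x' h))
    have h2 := N_le (hfp γ u x) (Φ γ u x - Φ γ u x')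
    have h3 := le_abs_self (E (K * 4 + K))
    calc _ ≤ bt R * |E (K * 4 + K)| := h2.trans (by gcongr; exact h1.trans h3)
      _ ≤ c := by linarith
  have close : ∀ (n : ℕ) (w : F), ∃ B : ℝ, ∀ p q : V, d p q ≤ n → (w⁻¹ * p.1).norm ≤ R →
      ‖p.2 - q.2‖ ≤ B := by
    intro n w
    refine ⟨bt (1⁻¹ * w).norm * (bt R * E n), fun p q h1 h2 => (norm_le_N w _).trans ?_⟩
    have := bt_pos (1⁻¹ * w).norm
    gcongr
    refine (N_le h2 _).trans ?_
    gcongr
    exact M.m4 _ _ _ h1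
  have bdd : ∀ γ u, ∃ B : ℝ, ∀ x, ‖Φ γ u x - Φ γ 1 x‖ ≤ B := by
    intro γ u
    obtain ⟨B, hB⟩ := close (K * (u⁻¹ * 1).norm + K) (τ γ u)
    exact ⟨B, fun x => hB _ _ (lip_le (hl γ) (M.m3 u 1 x)) (hfp γ u x)⟩
  have hn : ∀ n : ℕ, (0 : ℝ) < (n : ℝ) + 1 := fun n => by positivity
  have ex : ∀ γ x, ∃ l, Tendsto (fun n : ℕ => ((n : ℝ) + 1)⁻¹ • Φ γ 1 (((n : ℝ) + 1) • x)) U
      (𝓝 l) := by
    intro γ x
    refine exists_lim _ (bt (1⁻¹ * τ γ 1).norm * (c * N 1 x + c) + ‖Φ γ 1 0‖) fun n => ?_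
    have h1 := lipΦ γ 1 (((n : ℝ) + 1) • x) 0
    rw [sub_zero, N_smul, abs_of_pos (hn n)] at h1
    have h2 := norm_le_N (τ γ 1) (Φ γ 1 (((n : ℝ) + 1) • x) - Φ γ 1 0)
    have h3 := norm_le_insert' (Φ γ 1 (((n : ℝ) + 1) • x)) (Φ γ 1 0)
    have b := bt_pos (1⁻¹ * τ γ 1).norm
    have h4 := mul_le_mul_of_nonneg_left h1 b.le
    have h5 : (0 : ℝ) ≤ n := Nat.cast_nonneg n
    have h6 := N_nonneg 1 x
    have h7 := norm_nonneg (Φ γ 1 0)
    rw [norm_smul, Real.norm_eq_abs, abs_of_pos (inv_pos.2 (hn n)), inv_mul_le_iff₀ (hn n)]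
    have h8 : 0 ≤ n * (bt (1⁻¹ * τ γ 1).norm * c) := by positivity
    have h9 : 0 ≤ n * ‖Φ γ 1 0‖ := by positivity
    nlinarith
  choose L hL using ex
  have hLu : ∀ γ u x, Tendsto (fun n : ℕ => ((n : ℝ) + 1)⁻¹ • Φ γ u (((n : ℝ) + 1) • x)) U
      (𝓝 (L γ x)) := by
    intro γ u x
    obtain ⟨B, hB⟩ := bdd γ u
    have := (tend_zero _ B fun n => hB (((n : ℝ) + 1) • x)).add (hL γ x)
    rw [zero_add] at this
    refine this.congr fun n => ?_
    rw [← smul_add, sub_add_cancel]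
  have inv0 : Tendsto (fun n : ℕ => ((n : ℝ) + 1)⁻¹) U (𝓝 0) := by
    have := tendsto_one_div_add_atTop_nhds_zero_nat (𝕜 := ℝ)
    simpa using this.mono_left U_le
  have gen : ∀ γ u (a b : ℕ → P) (n : ℕ),
      N (τ γ u) (((n : ℝ) + 1)⁻¹ • Φ γ u (a n) - ((n : ℝ) + 1)⁻¹ • Φ γ u (b n)) ≤
        c * N u (((n : ℝ) + 1)⁻¹ • a n - ((n : ℝ) + 1)⁻¹ • b n) + c * ((n : ℝ) + 1)⁻¹ := by
    intro γ u a b n
    rw [← smul_sub, ← smul_sub, N_smul, N_smul, abs_of_pos (inv_pos.2 (hn n))]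
    have := mul_le_mul_of_nonneg_left (lipΦ γ u (a n) (b n)) (inv_pos.2 (hn n)).le
    linarith
  have sm : ∀ (n : ℕ) (x : P), ((n : ℝ) + 1)⁻¹ • ((n : ℝ) + 1) • x = x := fun n x => by
    rw [smul_smul, inv_mul_cancel₀ (hn n).ne', one_smul]
  have lipL : ∀ γ u x x', N (τ γ u) (L γ x - L γ x') ≤ c * N u (x - x') := by
    intro γ u x x'
    have t1 := ((continuous_N (τ γ u)).tendsto _).comp ((hLu γ u x).sub (hLu γ u x'))
    have t2 : Tendsto (fun n : ℕ => c * N u (x - x') + c * ((n : ℝ) + 1)⁻¹) U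
        (𝓝 (c * N u (x - x') + c * 0)) := tendsto_const_nhds.add (inv0.const_mul c)
    rw [mul_zero, add_zero] at t2
    refine le_of_tendsto_of_tendsto' t1 t2 fun n => ?_
    have := gen γ u (fun n => ((n : ℝ) + 1) • x) (fun n => ((n : ℝ) + 1) • x') n
    rwa [sm, sm] at this
  have L0 : ∀ γ, L γ 0 = 0 := by
    intro γ
    refine tendsto_nhds_unique (hL γ 0) ?_
    simpa using tend_zero (fun _ => Φ γ 1 0) _ fun _ => le_rfl
  have L1 : ∀ x, L 1 x = x := by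
    intro x
    refine tendsto_nhds_unique (hL 1 x) ?_
    obtain ⟨B, hB⟩ := close K (τ 1 1)
    have := (tend_zero (fun n => Φ 1 1 (((n : ℝ) + 1) • x) - ((n : ℝ) + 1) • x) B
      fun n => hB _ _ (ho (1, ((n : ℝ) + 1) • x)) (hfp 1 1 _)).add (tendsto_const_nhds (x := x))
    rw [zero_add] at this
    refine this.congr fun n => ?_
    rw [smul_sub, sm, sub_add_cancel]
  have Lmul : ∀ γ δ x, L (γ * δ) x = L γ (L δ x) := by
    intro γ δ x
    refine tendsto_nhds_unique (hL (γ * δ) x) ?_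
    set u := τ δ 1 with hu
    obtain ⟨B, hB⟩ := close (K + (K * R + K)) (τ (γ * δ) 1)
    have t1 := tend_zero (fun n => Φ (γ * δ) 1 (((n : ℝ) + 1) • x) -
      Φ γ u (Φ δ 1 (((n : ℝ) + 1) • x))) B fun n => by
        refine hB _ _ ?_ (hfp _ 1 _)
        have a1 := hm γ δ (1, ((n : ℝ) + 1) • x)
        rw [M.symm] at a1
        have a2 : d (f δ (1, ((n : ℝ) + 1) • x)) (u, Φ δ 1 (((n : ℝ) + 1) • x)) ≤ R := by
          rw [M.symm]
          exact (M.m3 u (f δ (1, ((n : ℝ) + 1) • x)).1 _).trans (hfp δ 1 _)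
        have a3 := lip_le (hl γ) a2
        exact (M.tri _ _ _).trans (add_le_add a1 a3)
    have t2 : Tendsto (fun n : ℕ => ((n : ℝ) + 1)⁻¹ • Φ γ u (Φ δ 1 (((n : ℝ) + 1) • x)) -
        ((n : ℝ) + 1)⁻¹ • Φ γ u (((n : ℝ) + 1) • L δ x)) U (𝓝 0) := by
      have s1 := ((continuous_N u).tendsto _).comp ((hL δ x).sub (tendsto_const_nhds (x := L δ x)))
      rw [sub_self, N_zero] at s1
      have s2 := ((s1.const_mul c).add (inv0.const_mul c)).const_mul (bt (1⁻¹ * τ γ u).norm)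
      rw [mul_zero, add_zero, mul_zero] at s2
      refine squeeze_zero_norm (fun n => (norm_le_N (τ γ u) _).trans ?_) s2
      have := gen γ u (fun n => Φ δ 1 (((n : ℝ) + 1) • x)) (fun n => ((n : ℝ) + 1) • L δ x) n
      rw [sm] at this
      exact mul_le_mul_of_nonneg_left this (bt_pos _).le
    have := (t1.add t2).add (hLu γ u (L δ x))
    rw [zero_add, zero_add] at this
    refine this.congr fun n => ?_
    rw [smul_sub]; abel
  have back : ∀ γ u, (u⁻¹ * τ γ⁻¹ (τ γ u)).norm ≤ 2 * K + R := by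
    intro γ u
    have a1 := (hQ γ).fb (u, 0)
    rw [M.symm] at a1
    have a2 := (M.m1 _ _).trans a1
    have a3 := hfp γ⁻¹ (τ γ u) (f γ (u, 0)).2
    rw [nrm_symm] at a3
    exact (nrm_tri _ _ _).trans (add_le_add a2 a3)
  have lowL : ∀ γ u x x', N u (x - x') ≤ bt (2 * K + R) * c * N (τ γ u) (L γ x - L γ x') := by
    intro γ u x x'
    have a1 := lipL γ⁻¹ (τ γ u) (L γ x) (L γ x')
    rw [← Lmul, ← Lmul, inv_mul_cancel, L1, L1] at a1
    rw [mul_assoc]
    exact (N_le (back γ u) _).trans (mul_le_mul_of_nonneg_left a1 (bt_pos _).le)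
  have b1 := one_le_bt K
  have b2 := one_le_bt (2 * K + R)
  refine bilip_false L (bt K * (bt (2 * K + R) * c)) (by positivity) Lmul L1 L0
    (fun γ u => ⟨τ γ u, fun x x' => ⟨(lipL γ u x x').trans ?_, (lowL γ u x x').trans ?_⟩⟩)
    (fun g => ?_)
  · refine mul_le_mul_of_nonneg_right ?_ (N_nonneg _ _)
    calc c = 1 * (1 * c) := by ring
      _ ≤ _ := by gcongr
  · refine mul_le_mul_of_nonneg_right ?_ (N_nonneg _ _)
    exact le_mul_of_one_le_left (by positivity) b1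
  · obtain ⟨γ, hγ⟩ := hc (g, 0)
    have a1 : ((τ γ 1)⁻¹ * g).norm ≤ K := (M.m1 _ _).trans hγ
    have a2 : (g⁻¹ * τ γ 1).norm ≤ K := by rwa [nrm_symm]
    refine ⟨γ, fun x => ⟨?_, ?_⟩⟩
    · have := lipL γ 1 x 0
      rw [L0, sub_zero, sub_zero, N_one] at this
      refine (N_le a2 _).trans ?_
      rw [mul_assoc]
      gcongr
      refine this.trans ?_
      gcongr
      exact le_mul_of_one_le_left hc0.le b2
    · have := lowL γ 1 x 0
      rw [L0, sub_zero, sub_zero, N_one] at this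
      refine this.trans ?_
      calc _ ≤ bt (2 * K + R) * c * (bt K * N g (L γ x)) := by gcongr; exact N_le a1 _
        _ = _ := by ring

end Pool.Agent.H504Z.CT
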