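import Pool.Agent.H504Z.CT.Rep
import Pool.Agent.Helper133.Brouwer

set_option autoImplicit false

namespace Pool.Agent.H504Z.CT

open FreeGroup Filter Topology

noncomputable def cl (a t : ℝ) : ℝ := max (-a) (min a t)

lemma cl_abs {a : ℝ} (ha : 0 ≤ a) (t : ℝ) : |cl a t| ≤ a := by
  unfold cl
  rw [abs_le]
  exact ⟨le_max_left _ _, max_le (by linarith) (min_le_left _ _)⟩

lemma cl_cont (a : ℝ) : Continuous (cl a) := by unfold cl; fun_prop

lemma cl_zero {a t g : ℝ} (ha : 0 ≤ a) (h : cl a t - g = t) (h1 : cl a t = a → 0 ≤ g)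
    (h2 : cl a t = -a → g ≤ 0) : g = 0 := by
  unfold cl at *
  rcases le_total a t with c | c
  · rw [min_eq_left c, max_eq_right (by linarith)] at *
    linarith [h1 rfl]
  · rw [min_eq_right c] at *
    rcases le_total (-a) t with c' | c'
    · rw [max_eq_right c'] at *
      linarith
    · rw [max_eq_left c'] at *
      linarith [h2 rfl]

lemma mem_both {X : Type*} [PseudoMetricSpace X] {A B : Set X} (hc : ∀ q, q ∈ A ∨ q ∈ B)
    (hA : A.Nonempty) (hB : B.Nonempty) (q : X)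
    (h : Metric.infDist q B - Metric.infDist q A = 0) : q ∈ closure A ∧ q ∈ closure B := by
  rw [Metric.mem_closure_iff_infDist_zero hA, Metric.mem_closure_iff_infDist_zero hB]
  rcases hc q with h1 | h1
  · have := Metric.infDist_zero_of_mem h1
    exact ⟨this, by linarith⟩
  · have := Metric.infDist_zero_of_mem h1
    exact ⟨by linarith, this⟩

lemma box_lemma (a m : ℝ) (ha : 0 ≤ a) (hm : 0 ≤ m) (A1 B1 A2 B2 A3 B3 : Set (ℝ × P))
    (c1 : ∀ q, q ∈ A1 ∨ q ∈ B1) (c2 : ∀ q, q ∈ A2 ∨ q ∈ B2) (c3 : ∀ q, q ∈ A3 ∨ q ∈ B3)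
    (f1 : ∀ ξ, (a, ξ) ∈ A1) (g1 : ∀ ξ, (-a, ξ) ∈ B1)
    (f2 : ∀ t η, |t| ≤ a → (t, (m, η)) ∈ A2) (g2 : ∀ t η, |t| ≤ a → (t, (-m, η)) ∈ B2)
    (f3 : ∀ t η, |t| ≤ a → (t, (η, m)) ∈ A3) (g3 : ∀ t η, |t| ≤ a → (t, (η, -m)) ∈ B3) :
    ∃ q, (q ∈ closure A1 ∧ q ∈ closure B1) ∧ (q ∈ closure A2 ∧ q ∈ closure B2) ∧
      (q ∈ closure A3 ∧ q ∈ closure B3) := by
  set c : ℝ × P → ℝ × P := fun q => (cl a q.1, (cl m q.2.1, cl m q.2.2)) with hc
  set g : ℝ × P → ℝ × P := fun q => (Metric.infDist q B1 - Metric.infDist q A1,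
    (Metric.infDist q B2 - Metric.infDist q A2, Metric.infDist q B3 - Metric.infDist q A3)) with hg
  have hcc : Continuous c := by
    have h1 := cl_cont a
    have h2 := cl_cont m
    rw [hc]; fun_prop
  have hgc : Continuous g := by
    have := fun s : Set (ℝ × P) => Metric.continuous_infDist_pt s
    exact ((this _).sub (this _)).prodMk (((this _).sub (this _)).prodMk ((this _).sub (this _)))
  obtain ⟨R, hR⟩ := (isCompact_closedBall (0 : ℝ × P) (max a m)).exists_bound_of_continuousOn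
    (f := fun q => q - g q) (continuous_id.sub hgc).continuousOn
  obtain ⟨q, hq⟩ := Pool.Agent.Helper133.Brouwer.brouwer (fun q => c q - g (c q))
    (hcc.sub (hgc.comp hcc)) R fun q => hR _ (by
      rw [mem_closedBall_zero_iff, Prod.norm_def, Prod.norm_def]
      exact max_le ((cl_abs ha _).trans (le_max_left _ _))
        (max_le ((cl_abs hm _).trans (le_max_right _ _)) ((cl_abs hm _).trans (le_max_right _ _))))
  have e1 : cl a q.1 - (g (c q)).1 = q.1 := congrArg Prod.fst hq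
  have e2 : cl m q.2.1 - (g (c q)).2.1 = q.2.1 := congrArg (fun z => z.2.1) hq
  have e3 : cl m q.2.2 - (g (c q)).2.2 = q.2.2 := congrArg (fun z => z.2.2) hq
  have pos : ∀ (A B : Set (ℝ × P)) z, z ∈ A → 0 ≤ Metric.infDist z B - Metric.infDist z A := by
    intro A B z hz
    rw [Metric.infDist_zero_of_mem hz, sub_zero]; exact Metric.infDist_nonneg
  have neg : ∀ (A B : Set (ℝ × P)) z, z ∈ B → Metric.infDist z B - Metric.infDist z A ≤ 0 := by
    intro A B z hz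
    rw [Metric.infDist_zero_of_mem hz, zero_sub, neg_nonpos]; exact Metric.infDist_nonneg
  have h0 : |(0 : ℝ)| ≤ a := by simpa using ha
  refine ⟨c q, mem_both c1 ⟨_, f1 0⟩ ⟨_, g1 0⟩ _ ?_, mem_both c2 ⟨_, f2 0 0 h0⟩ ⟨_, g2 0 0 h0⟩ _ ?_,
    mem_both c3 ⟨_, f3 0 0 h0⟩ ⟨_, g3 0 0 h0⟩ _ ?_⟩
  · refine cl_zero ha e1 (fun h => pos _ _ _ ?_) (fun h => neg _ _ _ ?_)
    · simp only [hc, h]; exact f1 _
    · simp only [hc, h]; exact g1 _
  · refine cl_zero hm e2 (fun h => pos _ _ _ ?_) (fun h => neg _ _ _ ?_)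
    · simp only [hc, h]; exact f2 _ _ (cl_abs ha _)
    · simp only [hc, h]; exact g2 _ _ (cl_abs ha _)
  · refine cl_zero hm e3 (fun h => pos _ _ _ ?_) (fun h => neg _ _ _ ?_)
    · simp only [hc, h]; exact f3 _ _ (cl_abs ha _)
    · simp only [hc, h]; exact g3 _ _ (cl_abs ha _)

abbrev V : Type := F × P

structure Model (d : V → V → ℕ) (E : ℕ → ℝ) : Prop where
  symm : ∀ p q, d p q = d q p
  tri : ∀ p q r, d p r ≤ d p q + d q r
  m1 : ∀ p q, (p.1⁻¹ * q.1).norm ≤ d p q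
  m2 : ∀ g x y (t : ℝ), N g (x - y) ≤ t → d (g, x) (g, y) ≤ ⌈2 * t + 2⌉₊
  m3 : ∀ g h x, d (g, x) (h, x) ≤ (g⁻¹ * h).norm
  m4 : ∀ p q n, d p q ≤ n → N p.1 (p.2 - q.2) ≤ E n

structure QPair (d : V → V → ℕ) (K : ℕ) (f fb : V → V) : Prop where
  lf : ∀ p q, d (f p) (f q) ≤ K * d p q + K
  lb : ∀ p q, d (fb p) (fb q) ≤ K * d p q + K
  bf : ∀ p, d (fb (f p)) p ≤ K
  fb : ∀ p, d (f (fb p)) p ≤ K

namespace Model

variable {d : V → V → ℕ} {E : ℕ → ℝ}

lemma m2one (M : Model d E) (g : F) (x y : P) (h : N g (x - y) ≤ 1) : d (g, x) (g, y) ≤ 4 := by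
  have := M.m2 g x y 1 h
  norm_num at this
  exact this

lemma E_nonneg (M : Model d E) (n : ℕ) (hn : 4 ≤ n) : 0 ≤ E n := by
  have := M.m4 (1, 0) (1, 0) n ((M.m2one 1 0 0 (by simp [N_zero])).trans hn)
  exact (N_nonneg _ _).trans this

lemma d2 (M : Model d E) {g h : F} {x y : P} {t : ℝ} {n : ℕ} (h1 : N g (x - y) ≤ t)
    (h2 : (g⁻¹ * h).norm ≤ n) : d (g, x) (h, y) ≤ ⌈2 * t + 2⌉₊ + n := by
  have a := M.tri (g, x) (g, y) (h, y)
  have b := M.m2 g x y t h1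
  have c := M.m3 g h y
  omega

end Model

lemma lip_le {d : V → V → ℕ} {K : ℕ} {f : V → V} (h : ∀ p q, d (f p) (f q) ≤ K * d p q + K)
    {p q : V} {n : ℕ} (hn : d p q ≤ n) : d (f p) (f q) ≤ K * n + K :=
  (h p q).trans (by gcongr)

noncomputable def pt (z : F) (s : Bool) (x₀ : P) (q : ℝ × P) : V :=
  (z * of s ^ ⌊q.1⌋, x₀ + rho z q.2)

lemma pt_near {d : V → V → ℕ} {E : ℕ → ℝ} (M : Model d E) (z : F) (s : Bool) (x₀ : P)
    (q : ℝ × P) : ∀ᶠ q' in 𝓝 q, d (pt z s x₀ q) (pt z s x₀ q') ≤ 5 := by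
  have h1 : ∀ᶠ q' : ℝ × P in 𝓝 q, |q'.1 - q.1| < 1 := by
    have hc : Continuous fun q' : ℝ × P => |q'.1 - q.1| := by fun_prop
    exact hc.continuousAt.eventually_lt continuousAt_const (by simp)
  have h2 : ∀ᶠ q' : ℝ × P in 𝓝 q,
      N (z * of s ^ ⌊q.1⌋) ((x₀ + rho z q.2) - (x₀ + rho z q'.2)) < 1 := by
    have hc : Continuous fun q' : ℝ × P =>
        N (z * of s ^ ⌊q.1⌋) ((x₀ + rho z q.2) - (x₀ + rho z q'.2)) := by
      have a := continuous_N (z * of s ^ ⌊q.1⌋)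
      have b := continuous_rho z
      fun_prop
    exact hc.continuousAt.eventually_lt continuousAt_const (by simp [N_zero])
  filter_upwards [h1, h2] with q' a b
  have c : ((z * of s ^ ⌊q.1⌋)⁻¹ * (z * of s ^ ⌊q'.1⌋) : F).norm ≤ 1 := by
    rw [show ((z * of s ^ ⌊q.1⌋)⁻¹ * (z * of s ^ ⌊q'.1⌋) : F) = of s ^ (⌊q'.1⌋ - ⌊q.1⌋) by group,
      norm_of_zpow]
    have a' := abs_lt.1 a
    have i1 := Int.floor_le q.1
    have i2 := Int.lt_floor_add_one q.1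
    have i3 := Int.floor_le q'.1
    have i4 := Int.lt_floor_add_one q'.1
    have j1 : ⌊q'.1⌋ < ⌊q.1⌋ + 2 := by
      have : (⌊q'.1⌋ : ℝ) < ⌊q.1⌋ + 2 := by linarith
      exact_mod_cast this
    have j2 : ⌊q.1⌋ < ⌊q'.1⌋ + 2 := by
      have : (⌊q.1⌋ : ℝ) < ⌊q'.1⌋ + 2 := by linarith
      exact_mod_cast this
    omega
  have := M.d2 b.le c
  norm_num at this
  exact this

lemma select {d : V → V → ℕ} {E : ℕ → ℝ} (M : Model d E) (φ : ℝ × P → V) (r m : ℕ) (w : F)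
    (hφ : ∀ q, ∀ᶠ q' in 𝓝 q, d (φ q) (φ q') ≤ r) :
    ∃ (Y : ℝ × P → P) (lam : ℝ × P → ℝ), Continuous Y ∧ Continuous lam ∧ ∀ q,
      N (φ q).1 ((φ q).2 - Y q) ≤ E r ∧ 0 ≤ lam q ∧ lam q ≤ 1 ∧
      ((w⁻¹ * (φ q).1).norm ≤ m → lam q = 1) ∧ (m + 2 * r < (w⁻¹ * (φ q).1).norm → lam q = 0) := by
  set t : ℝ × P → Set (P × ℝ) := fun q => {y | N (φ q).1 ((φ q).2 - y.1) ≤ E r ∧ 0 ≤ y.2 ∧ y.2 ≤ 1 ∧
      ((w⁻¹ * (φ q).1).norm ≤ m → y.2 = 1) ∧ (m + 2 * r < (w⁻¹ * (φ q).1).norm → y.2 = 0)} with ht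
  obtain ⟨g, hg⟩ := exists_continuous_forall_mem_convex_of_local_const (t := t) (fun q => by
    rintro y ⟨y1, y2, y3, y4, y5⟩ y' ⟨z1, z2, z3, z4, z5⟩ a b ha hb hab
    refine ⟨?_, ?_, ?_, fun h => ?_, fun h => ?_⟩
    · have e : (φ q).2 - (a • y + b • y').1 = a • ((φ q).2 - y.1) + b • ((φ q).2 - y'.1) := by
        rw [Prod.fst_add, Prod.smul_fst, Prod.smul_fst]
        conv_lhs => rw [← one_smul ℝ (φ q).2, ← hab]
        module
      rw [e]
      refine (N_add _ _ _).trans ?_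
      rw [N_smul, N_smul, abs_of_nonneg ha, abs_of_nonneg hb]
      calc _ ≤ a * E r + b * E r := by gcongr
        _ = E r := by rw [← add_mul, hab, one_mul]
    · simp only [Prod.snd_add, Prod.smul_snd, smul_eq_mul]; positivity
    · simp only [Prod.snd_add, Prod.smul_snd, smul_eq_mul]; nlinarith
    · simp only [Prod.snd_add, Prod.smul_snd, smul_eq_mul, y4 h, z4 h]; linarith
    · simp only [Prod.snd_add, Prod.smul_snd, smul_eq_mul, y5 h, z5 h]; simp) (fun q => by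
    refine ⟨((φ q).2, if (w⁻¹ * (φ q).1).norm ≤ m + r then 1 else 0), ?_⟩
    filter_upwards [hφ q] with q' hq'
    have a := M.m1 (φ q) (φ q')
    have b := nrm_tri w (φ q).1 (φ q').1
    have c := nrm_tri w (φ q').1 (φ q).1
    rw [nrm_symm (φ q').1] at c
    refine ⟨M.m4 (φ q') (φ q) r (by rwa [M.symm]), ?_, ?_, fun h => ?_, fun h => ?_⟩
    · dsimp only; split_ifs <;> norm_num
    · dsimp only; split_ifs <;> norm_num
    · dsimp only; rw [if_pos (by omega)]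
    · dsimp only; rw [if_neg (by omega)])
  exact ⟨fun q => (g q).1, fun q => (g q).2, g.continuous.fst, g.continuous.snd, fun q => hg q⟩

lemma cover {d : V → V → ℕ} {E : ℕ → ℝ} (M : Model d E) (K : ℕ) : ∃ R : ℕ, ∀ f fb : V → V,
    QPair d K f fb → ∀ (z : F) (x₀ : P) (s : Bool) (y₁ : P),
      ∃ (k : ℤ) (x : P), d ((f (z, x₀)).1, y₁) (f (z * of s ^ k, x)) ≤ R := by
  obtain ⟨r, hr⟩ : ∃ r, r = K * 5 + K := ⟨_, rfl⟩
  obtain ⟨r₂, hr₂⟩ : ∃ r₂, r₂ = K * (4 + r) + K := ⟨_, rfl⟩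
  obtain ⟨r₃, hr₃⟩ : ∃ r₃, r₃ = ⌈2 * (bt r₂ * E r₂) + 2⌉₊ + r₂ := ⟨_, rfl⟩
  obtain ⟨m₀, hm₀⟩ : ∃ m₀, m₀ = K * r₃ + K + K := ⟨_, rfl⟩
  obtain ⟨e₁, he₁⟩ : ∃ e₁, e₁ = ⌈2 * E r + 2⌉₊ := ⟨_, rfl⟩
  refine ⟨4 + m₀ + e₁, fun f fb Q z x₀ s y₁ => ?_⟩
  set w := (f (z, x₀)).1 with hw
  set y := (f (z, x₀)).2 with hy
  have hwy : f (z, x₀) = (w, y) := rfl
  set φ : ℝ × P → V := fun q => f (pt z s x₀ q) with hφ
  have hφn : ∀ q, ∀ᶠ q' in 𝓝 q, d (φ q) (φ q') ≤ r := fun q =>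
    (pt_near M z s x₀ q).mono fun q' h => hr ▸ lip_le Q.lf h
  obtain ⟨Y, lam, hYc, hlc, hY⟩ := select M φ r m₀ w hφn
  have hYd : ∀ q, d ((φ q).1, Y q) (φ q) ≤ e₁ := fun q => by
    rw [M.symm, he₁]; exact M.m2 _ _ _ _ (hY q).1
  obtain ⟨R₁, hR₁⟩ : ∃ R₁, R₁ = N w (y - y₁) + |E m₀| + 1 := ⟨_, rfl⟩
  have hR₁1 : 1 ≤ R₁ := by
    have := N_nonneg w (y - y₁); have := abs_nonneg (E m₀); linarith
  set mu : ℝ × P → ℝ := fun q => max 1 (lam q * R₁ / max 1 (N w (Y q - y₁))) with hmu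
  have hmuc : Continuous mu := by
    have a := continuous_N w
    refine continuous_const.max ((hlc.mul continuous_const).div
      (continuous_const.max (a.comp (hYc.sub continuous_const))) fun q => ?_)
    exact (lt_of_lt_of_le one_pos (le_max_left _ _)).ne'
  set x₁ : ℝ × P → P := fun q => y₁ + mu q • (Y q - y₁) with hx₁
  have hx₁c : Continuous x₁ := continuous_const.add (hmuc.smul (hYc.sub continuous_const))
  set Pq : ℝ × P → V := fun q => ((φ q).1, x₁ q) with hPq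
  set eta : ℝ × P → P := fun q => rhoi z ((fb (Pq q)).2 - x₀) with heta
  obtain ⟨B, hB⟩ : ∃ B, B = K * (⌈2 * (N w (y - y₁) + R₁) + 2⌉₊ + (m₀ + 2 * r) + e₁) + K + K + K :=
    ⟨_, rfl⟩
  obtain ⟨D, hD⟩ : ∃ D, D = K * e₁ + K + K := ⟨_, rfl⟩
  have far : ∀ q, B < d (z, x₀) (pt z s x₀ q) → d (pt z s x₀ q) (fb (Pq q)) ≤ D := by
    intro q hq
    have hun : x₁ q = Y q := by
      by_contra hne
      have h1 : 1 < lam q * R₁ / max 1 (N w (Y q - y₁)) := by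
        by_contra h1
        apply hne
        simp only [hx₁, hmu]
        rw [max_eq_left (not_lt.1 h1), one_smul]; abel
      rw [lt_div_iff₀ (lt_of_lt_of_le one_pos (le_max_left _ _)), one_mul] at h1
      obtain ⟨-, l0, l1, -, l3⟩ := hY q
      have h2 : (w⁻¹ * (φ q).1).norm ≤ m₀ + 2 * r := by
        by_contra h2
        rw [l3 (not_le.1 h2), zero_mul] at h1
        linarith [le_max_left 1 (N w (Y q - y₁))]
      have h3 : N w (y - Y q) ≤ N w (y - y₁) + R₁ := by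
        have a := N_tri w y y₁ (Y q)
        rw [N_sub_comm w y₁] at a
        have b := le_max_right 1 (N w (Y q - y₁))
        nlinarith
      have h4 := M.d2 h3 h2
      have h5 := M.tri (w, y) ((φ q).1, Y q) (φ q)
      have h6 := hYd q
      have h7 := lip_le Q.lb (p := f (z, x₀)) (q := φ q)
        (n := ⌈2 * (N w (y - y₁) + R₁) + 2⌉₊ + (m₀ + 2 * r) + e₁) (by rw [hwy]; omega)
      have h8 := Q.bf (z, x₀)
      have h9 := Q.bf (pt z s x₀ q)
      have h10 := M.tri (z, x₀) (fb (f (z, x₀))) (pt z s x₀ q)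
      have h11 := M.tri (fb (f (z, x₀))) (fb (φ q)) (pt z s x₀ q)
      rw [M.symm] at h8
      simp only [hφ] at h7 h11
      omega
    have h1 := lip_le Q.lb (hYd q)
    have h2 := Q.bf (pt z s x₀ q)
    have h3 := M.tri (fb (Pq q)) (fb (φ q)) (pt z s x₀ q)
    rw [M.symm]
    simp only [hPq, hun, hφ] at h1 h3 ⊢
    omega
  obtain ⟨n, hn⟩ : ∃ n, n = B + D := ⟨_, rfl⟩
  obtain ⟨m, hm⟩ : ∃ m, m = |E B| + bt (n + 1) * |E D| + 1 := ⟨_, rfl⟩
  have hbt := bt_pos (n + 1)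
  have hm0 : 0 ≤ m := by rw [hm]; positivity
  have side : ∀ (t : ℝ) (ξ : P), |t| ≤ ((n + 1 : ℕ) : ℝ) → m ≤ ‖ξ‖ → ‖ξ - eta (t, ξ)‖ ≤ m := by
    intro t ξ ht hξ
    have h1 : B < d (z, x₀) (pt z s x₀ (t, ξ)) := by
      by_contra h1
      have := M.m4 _ _ _ (not_lt.1 h1)
      simp only [pt] at this
      rw [N_sub_comm, add_sub_cancel_left, N_rho] at this
      have a := le_abs_self (E B)
      have b : 0 ≤ bt (n + 1) * |E D| := by positivity
      linarith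
    have h2 := M.m4 _ _ _ (far _ h1)
    have h3 : (z⁻¹ * (pt z s x₀ (t, ξ)).1).norm ≤ n + 1 := by
      simp only [pt, inv_mul_cancel_left, norm_of_zpow]
      have a := abs_le.1 ht
      have b : ⌊t⌋ ≤ ((n + 1 : ℕ) : ℤ) := by
        have : (⌊t⌋ : ℝ) ≤ ((n + 1 : ℕ) : ℝ) := (Int.floor_le t).trans a.2
        exact_mod_cast this
      have c : -((n + 1 : ℕ) : ℤ) ≤ ⌊t⌋ := Int.le_floor.2 (by exact_mod_cast a.1)
      omega
    have h4 := N_le h3 ((pt z s x₀ (t, ξ)).2 - (fb (Pq (t, ξ))).2)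
    have e : ξ - eta (t, ξ) = rhoi z ((pt z s x₀ (t, ξ)).2 - (fb (Pq (t, ξ))).2) := by
      simp only [heta, pt]
      rw [rhoi_sub, rhoi_sub, rhoi_add, rhoi_rho]; abel
    rw [e]
    have a := le_abs_self (E D)
    have b := abs_nonneg (E B)
    calc _ ≤ bt (n + 1) * |E D| := h4.trans (by gcongr; exact h2.trans a)
      _ ≤ m := by linarith
  have n1 : ∀ v : P, |v.1| ≤ ‖v‖ := fun v => by rw [norm_P]; exact le_max_left _ _
  have n2 : ∀ v : P, |v.2| ≤ ‖v‖ := fun v => by rw [norm_P]; exact le_max_right _ _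
  obtain ⟨q, ⟨a1, b1⟩, ⟨a2, b2⟩, ⟨a3, b3⟩⟩ := box_lemma ((n + 1 : ℕ) : ℝ) m (Nat.cast_nonneg _) hm0
    {q | z⁻¹ * (fb (Pq q)).1 ∈ startsWith (s, true)}
    {q | z⁻¹ * (fb (Pq q)).1 ∉ startsWith (s, true)}
    {q | 0 ≤ (eta q).1} {q | (eta q).1 ≤ 0} {q | 0 ≤ (eta q).2} {q | (eta q).2 ≤ 0}
    (fun q => em _) (fun q => le_total 0 (eta q).1) (fun q => le_total 0 (eta q).2)
    (fun ξ => by
      have e : (pt z s x₀ (((n + 1 : ℕ) : ℝ), ξ)).1 = z * of s ^ (n + 1) := by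
        simp only [pt, Int.floor_natCast, zpow_natCast]
      have h1 := M.m1 (z, x₀) (pt z s x₀ (((n + 1 : ℕ) : ℝ), ξ))
      rw [e, inv_mul_cancel_left, norm_of_pow] at h1
      have h2 := (M.m1 _ _).trans (far (((n + 1 : ℕ) : ℝ), ξ) (by omega))
      rw [e] at h2
      by_contra h3
      have h4 := (sep (pow_mem_sw s n) (h := (z * of s ^ (n + 1))⁻¹ *
        (fb (Pq (((n + 1 : ℕ) : ℝ), ξ))).1) (by
          rw [mul_inv_rev, mul_assoc, mul_inv_cancel_left]; exact h3)).1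
      rw [norm_of_pow] at h4
      omega)
    (fun ξ => by
      have e : (pt z s x₀ (-((n + 1 : ℕ) : ℝ), ξ)).1 = z * (of s ^ (n + 1))⁻¹ := by
        simp only [pt]
        rw [← Int.cast_natCast, ← Int.cast_neg, Int.floor_intCast, zpow_neg, zpow_natCast]
      have h1 := M.m1 (z, x₀) (pt z s x₀ (-((n + 1 : ℕ) : ℝ), ξ))
      rw [e, inv_mul_cancel_left, norm_inv_eq, norm_of_pow] at h1
      have h2 := (M.m1 _ _).trans (far (-((n + 1 : ℕ) : ℝ), ξ) (by omega))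
      rw [e, nrm_symm] at h2
      intro h3
      have e2 : z⁻¹ * (fb (Pq (-((n + 1 : ℕ) : ℝ), ξ))).1 *
          (((fb (Pq (-((n + 1 : ℕ) : ℝ), ξ))).1)⁻¹ * (z * (of s ^ (n + 1))⁻¹))
          = (of s ^ (n + 1))⁻¹ := by group
      have h4 := (sep h3 (by rw [e2]; exact inv_pow_not_mem_sw s _)).2
      rw [e2, norm_inv_eq, norm_of_pow] at h4
      omega)
    (fun t η ht => by
      have h1 := side t (m, η) ht ((le_abs_self m).trans (n1 (m, η)))
      have h2 := abs_le.1 ((n1 _).trans h1)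
      simp only [Prod.fst_sub] at h2
      show 0 ≤ (eta (t, (m, η))).1
      linarith [h2.2])
    (fun t η ht => by
      have h1 := side t (-m, η) ht ((le_abs_self m).trans (by simp))
      have h2 := abs_le.1 ((n1 _).trans h1)
      simp only [Prod.fst_sub] at h2
      show (eta (t, (-m, η))).1 ≤ 0
      linarith [h2.1])
    (fun t η ht => by
      have h1 := side t (η, m) ht ((le_abs_self m).trans (n2 (η, m)))
      have h2 := abs_le.1 ((n2 _).trans h1)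
      simp only [Prod.snd_sub] at h2
      show 0 ≤ (eta (t, (η, m))).2
      linarith [h2.2])
    (fun t η ht => by
      have h1 := side t (η, -m) ht ((le_abs_self m).trans (by simp))
      have h2 := abs_le.1 ((n2 _).trans h1)
      simp only [Prod.snd_sub] at h2
      show (eta (t, (η, -m))).2 ≤ 0
      linarith [h2.1])
  have near : ∀ᶠ q' in 𝓝 q, d (fb (Pq q)) (fb (Pq q')) ≤ r₂ := by
    have h2 : ∀ᶠ q' : ℝ × P in 𝓝 q, N (φ q).1 (x₁ q - x₁ q') < 1 := by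
      have hc : Continuous fun q' : ℝ × P => N (φ q).1 (x₁ q - x₁ q') :=
        (continuous_N _).comp (continuous_const.sub hx₁c)
      exact hc.continuousAt.eventually_lt continuousAt_const (by simp [N_zero])
    filter_upwards [h2, hφn q] with q' a b
    have c := M.d2 a.le ((M.m1 _ _).trans b)
    norm_num at c
    rw [hr₂]
    exact lip_le Q.lb c
  have get : ∀ A : Set (ℝ × P), q ∈ closure A → ∃ q' ∈ A, d (fb (Pq q)) (fb (Pq q')) ≤ r₂ :=
    fun A h => ((mem_closure_iff_frequently.1 h).and_eventually near).exists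
  have u1 : (z⁻¹ * (fb (Pq q)).1).norm ≤ r₂ := by
    by_cases h : z⁻¹ * (fb (Pq q)).1 ∈ startsWith (s, true)
    · obtain ⟨q', h1, h2⟩ := get _ b1
      refine (sep h (h := ((fb (Pq q)).1)⁻¹ * (fb (Pq q')).1) ?_).1.trans ((M.m1 _ _).trans h2)
      rw [mul_assoc, mul_inv_cancel_left]; exact h1
    · obtain ⟨q', h1, h2⟩ := get _ a1
      have e : z⁻¹ * (fb (Pq q')).1 * (((fb (Pq q')).1)⁻¹ * (fb (Pq q)).1)
          = z⁻¹ * (fb (Pq q)).1 := by group
      have := (sep h1 (h := ((fb (Pq q')).1)⁻¹ * (fb (Pq q)).1) (by rw [e]; exact h)).2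
      rw [e] at this
      rw [M.symm] at h2
      exact this.trans ((M.m1 _ _).trans h2)
  have u2 : ∀ A : Set (ℝ × P), q ∈ closure A → ∃ q' ∈ A, ‖eta q - eta q'‖ ≤ bt r₂ * E r₂ := by
    intro A h
    obtain ⟨q', h1, h2⟩ := get A h
    refine ⟨q', h1, ?_⟩
    have e : eta q - eta q' = rhoi z ((fb (Pq q)).2 - (fb (Pq q')).2) := by
      simp only [heta]
      rw [← rhoi_sub]; congr 1; abel
    rw [e]
    have := bt_pos r₂
    exact (N_le u1 _).trans (by gcongr; exact M.m4 _ _ _ h2)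
  have u3 : N z (x₀ - (fb (Pq q)).2) ≤ bt r₂ * E r₂ := by
    rw [N_sub_comm]
    show ‖eta q‖ ≤ _
    obtain ⟨q1, i1, j1⟩ := u2 _ a2
    obtain ⟨q2, i2, j2⟩ := u2 _ b2
    obtain ⟨q3, i3, j3⟩ := u2 _ a3
    obtain ⟨q4, i4, j4⟩ := u2 _ b3
    have k1 := abs_le.1 ((n1 _).trans j1)
    have k2 := abs_le.1 ((n1 _).trans j2)
    have k3 := abs_le.1 ((n2 _).trans j3)
    have k4 := abs_le.1 ((n2 _).trans j4)
    simp only [Prod.fst_sub, Prod.snd_sub, Set.mem_ofPred_eq] at *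
    rw [norm_P]
    refine max_le (abs_le.2 ⟨?_, ?_⟩) (abs_le.2 ⟨?_, ?_⟩) <;> linarith
  have u4 : d (w, y) (Pq q) ≤ m₀ := by
    have h1 : d (z, x₀) (fb (Pq q)) ≤ r₃ := hr₃ ▸ M.d2 u3 u1
    have h2 := lip_le Q.lf h1
    have h3 := Q.fb (Pq q)
    have h4 := M.tri (f (z, x₀)) (f (fb (Pq q))) (Pq q)
    rw [← hwy]; omega
  have u5 : (w⁻¹ * (φ q).1).norm ≤ m₀ := (M.m1 (w, y) (Pq q)).trans u4
  have u6 : N w (y - x₁ q) ≤ E m₀ := M.m4 _ _ _ u4
  have u7 : N w (y₁ - Y q) ≤ 1 := by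
    by_contra h
    push Not at h
    rw [N_sub_comm] at h
    have e : N w (x₁ q - y₁) = mu q * N w (Y q - y₁) := by
      simp only [hx₁]
      rw [add_sub_cancel_left, N_smul, abs_of_nonneg]
      exact zero_le_one.trans (le_max_left _ _)
    have h2 : R₁ ≤ mu q * N w (Y q - y₁) := by
      have : R₁ / N w (Y q - y₁) ≤ mu q := by
        simp only [hmu]
        rw [(hY q).2.2.2.1 u5, one_mul, max_eq_right h.le]
        exact le_max_right _ _
      rwa [div_le_iff₀ (by linarith)] at this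
    have h3 := N_tri w (x₁ q) y y₁
    rw [N_sub_comm w (x₁ q) y] at h3
    have := le_abs_self (E m₀)
    linarith
  refine ⟨⌊q.1⌋, x₀ + rho z q.2, ?_⟩
  have h1 := M.d2 u7 u5
  norm_num at h1
  have h2 := M.tri (w, y₁) ((φ q).1, Y q) (φ q)
  have h3 := hYd q
  show d (w, y₁) (φ q) ≤ _
  omega

lemma fibre {d : V → V → ℕ} {E : ℕ → ℝ} (M : Model d E) (K : ℕ) : ∃ R : ℕ, ∀ f fb : V → V,
    QPair d K f fb → ∀ (w : F) (y y₁ : P), (((fb (w, y)).1)⁻¹ * (fb (w, y₁)).1).norm ≤ R := by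
  obtain ⟨R, hR⟩ := cover M K
  refine ⟨3 * (K * (K + R) + K + K), fun f fb Q w y y₁ => ?_⟩
  set z := (fb (w, y)).1 with hz
  have key : ∀ s : Bool, ∃ k : ℤ,
      ((z * of s ^ k)⁻¹ * (fb (w, y₁)).1).norm ≤ K * (K + R) + K + K := by
    intro s
    obtain ⟨k, x, h⟩ := hR f fb Q z (fb (w, y)).2 s y₁
    refine ⟨k, ?_⟩
    have h1 : (w⁻¹ * (f (z, (fb (w, y)).2)).1).norm ≤ K := by
      have := Q.fb (w, y)
      rw [M.symm] at this
      exact (M.m1 _ _).trans this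
    have h2 := (M.m3 w (f (z, (fb (w, y)).2)).1 y₁).trans h1
    have h3 := M.tri (w, y₁) ((f (z, (fb (w, y)).2)).1, y₁) (f (z * of s ^ k, x))
    have h4 := lip_le Q.lb (p := (w, y₁)) (q := f (z * of s ^ k, x)) (n := K + R) (by omega)
    have h5 := Q.bf (z * of s ^ k, x)
    have h6 := M.tri (fb (w, y₁)) (fb (f (z * of s ^ k, x))) (z * of s ^ k, x)
    have h7 := M.m1 (z * of s ^ k, x) (fb (w, y₁))
    rw [M.symm] at h7
    exact h7.trans (by omega)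
  obtain ⟨k, hk⟩ := key true
  obtain ⟨l, hl⟩ := key false
  have h1 := transversal k l
  have h2 := nrm_tri (z * of true ^ k) (fb (w, y₁)).1 (z * of false ^ l)
  rw [show (z * of true ^ k)⁻¹ * (z * of false ^ l) = (of true ^ k)⁻¹ * of false ^ l by group,
    nrm_symm (fb (w, y₁)).1] at h2
  have h3 := nrm_tri z (z * of true ^ k) (fb (w, y₁)).1
  rw [inv_mul_cancel_left, norm_of_zpow] at h3
  omega

end Pool.Agent.H504Z.CT
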