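import Mathlib

set_option autoImplicit false

namespace Pool.Agent.H504Z.CT

/-- `f` is a `(K, C)`-quasi-isometry from the graph `X` to the graph `Y` (path metrics). -/
def IsQI {A B : Type*} (X : SimpleGraph A) (Y : SimpleGraph B) (K C : ℝ) (f : A → B) : Prop :=
  (∀ x x', K⁻¹ * (X.dist x x' : ℝ) - C ≤ (Y.dist (f x) (f x') : ℝ) ∧
    (Y.dist (f x) (f x') : ℝ) ≤ K * (X.dist x x' : ℝ) + C) ∧
  ∀ y, ∃ x, (Y.dist y (f x) : ℝ) ≤ C

/-- There is a `(K, C)`-quasi-isometry from `X` to `Y` for some `K ≥ 1`, `C ≥ 0`. -/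
def QuasiIsometric {A B : Type*} (X : SimpleGraph A) (Y : SimpleGraph B) : Prop :=
  ∃ (K C : ℝ) (f : A → B), 1 ≤ K ∧ 0 ≤ C ∧ IsQI X Y K C f

/-- The automorphism group acts transitively on the vertices. -/
def VertexTransitive {B : Type*} (Y : SimpleGraph B) : Prop :=
  ∀ y y' : B, ∃ γ : Y ≃g Y, γ y = y'

/-- With uniform constants, any vertex is sent to any other by a self-quasi-isometry. -/
def CoarselyTransitive {A : Type*} (X : SimpleGraph A) : Prop :=
  ∃ K C : ℝ, 1 ≤ K ∧ 0 ≤ C ∧ ∀ x y : A, ∃ f : A → A, IsQI X X K C f ∧ f x = y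

end Pool.Agent.H504Z.CT
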