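import Mathlib

set_option autoImplicit false

namespace Pool.Agent.H504Z.CT

open FreeGroup

abbrev F : Type := FreeGroup Bool

abbrev Lt : Type := Bool × Bool

def kap : Lt → Lt → ℤ
  | (true, true), (false, true) => 1
  | (false, false), (true, false) => -1
  | _, _ => 0

def cnt : List Lt → ℤ
  | x :: y :: l => kap x y + cnt (y :: l)
  | _ => 0

def junc (u v : List Lt) : ℤ :=
  match u.getLast?, v.head? with
  | some x, some y => kap x y
  | _, _ => 0

lemma kap_abs (x y : Lt) : |kap x y| ≤ 1 := by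
  rcases x with ⟨_ | _, _ | _⟩ <;> rcases y with ⟨_ | _, _ | _⟩ <;> simp [kap]

lemma junc_abs (u v : List Lt) : |junc u v| ≤ 1 := by
  unfold junc
  split
  · exact kap_abs _ _
  · simp

lemma cnt_append : ∀ (u v : List Lt), cnt (u ++ v) = cnt u + cnt v + junc u v
  | [], v => by simp [cnt, junc]
  | [x], [] => by simp [cnt, junc]
  | [x], y :: v => by simp [cnt, junc]; ring
  | x :: y :: u, v => by
    have ih := cnt_append (y :: u) v
    have e : junc (x :: y :: u) v = junc (y :: u) v := by
      simp [junc, List.getLast?_cons_cons]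
    simp only [List.cons_append, cnt] at ih ⊢
    rw [ih, e]; ring

lemma kap_inv (x y : Lt) : kap (y.1, !y.2) (x.1, !x.2) = - kap x y := by
  rcases x with ⟨_ | _, _ | _⟩ <;> rcases y with ⟨_ | _, _ | _⟩ <;> simp [kap]

lemma cnt_invRev : ∀ (t : List Lt), cnt (invRev t) = - cnt t
  | [] => by simp [cnt]
  | [x] => by simp [cnt, invRev]
  | x :: y :: l => by
    have ih := cnt_invRev (y :: l)
    rw [invRev_cons, cnt_append, ih]
    have e : junc (invRev (y :: l)) (invRev [x]) = kap (y.1, !y.2) (x.1, !x.2) := by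
      simp [junc, invRev]
    rw [e, kap_inv]
    simp [cnt, invRev]

lemma cnt_abs : ∀ (t : List Lt), |cnt t| ≤ t.length
  | [] => by simp [cnt]
  | [x] => by simp [cnt]
  | x :: y :: l => by
    have ih := cnt_abs (y :: l)
    have := kap_abs x y
    simp only [cnt, List.length_cons] at ih ⊢
    push_cast at ih ⊢
    have := abs_add_le (kap x y) (cnt (y :: l))
    linarith

lemma decomp : ∀ (v u : List Lt), IsReduced u → IsReduced v →
    ∃ u' t v', u = u' ++ t ∧ v = invRev t ++ v' ∧ IsReduced (u' ++ v')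
  | [], u, hu, _ => ⟨u, [], [], by simp, by simp, by simpa using hu⟩
  | y :: v, u, hu, hv => by
    rcases List.eq_nil_or_concat u with rfl | ⟨u₀, x, rfl⟩
    · exact ⟨[], [], y :: v, by simp, by simp, by simpa using hv⟩
    · by_cases h : x.1 = y.1 → x.2 = y.2
      · refine ⟨u₀.concat x, [], y :: v, by simp, by simp, ?_⟩
        have h2 : IsReduced ([x] ++ (y :: v)) := by
          simpa using (isReduced_cons_cons.2 ⟨h, hv⟩)
        have := IsReduced.append_overlap (L₁ := u₀) (L₂ := [x]) (L₃ := y :: v)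
          (by simpa using hu) h2 (by simp)
        simpa using this
      · have hu₀ : IsReduced u₀ := List.IsChain.left_of_append (l₁ := u₀) (l₂ := [x]) (by simpa [FreeGroup.IsReduced] using hu)
        have hv₀ : IsReduced v := List.IsChain.right_of_append (l₁ := [y]) (l₂ := v) hv
        obtain ⟨u', t, v', h1, h2, h3⟩ := decomp v u₀ hu₀ hv₀
        refine ⟨u', t ++ [x], v', by simp [h1], ?_, h3⟩
        have : y = (x.1, !x.2) := by
          rcases x with ⟨_ | _, _ | _⟩ <;> rcases y with ⟨_ | _, _ | _⟩ <;> simp at h ⊢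
        rw [invRev_append, h2, this]
        simp [invRev]

lemma decomp_grp (g h : F) : ∃ u t v : List Lt, g.toWord = u ++ t ∧ h.toWord = invRev t ++ v ∧
    (g * h).toWord = u ++ v := by
  obtain ⟨u, t, v, h1, h2, h3⟩ := decomp h.toWord g.toWord isReduced_toWord isReduced_toWord
  refine ⟨u, t, v, h1, h2, ?_⟩
  have e : g * h = mk (u ++ v) := by
    conv_lhs => rw [← mk_toWord (x := g), ← mk_toWord (x := h), h1, h2]
    rw [← mul_mk, ← mul_mk, ← mul_mk, ← inv_mk]
    group
  rw [e, toWord_mk, h3.reduce_eq]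

/-- The counting quasimorphism. -/
def phi (g : F) : ℤ := cnt g.toWord

lemma phi_one : phi 1 = 0 := by simp [phi, cnt]

lemma phi_abs (g : F) : |phi g| ≤ g.norm := cnt_abs _

lemma phi_mul (g h : F) : |phi (g * h) - phi g - phi h| ≤ 3 := by
  obtain ⟨u, t, v, h1, h2, h3⟩ := decomp_grp g h
  unfold phi
  rw [h1, h2, h3, cnt_append, cnt_append, cnt_append, cnt_invRev]
  have a1 := abs_le.1 (junc_abs u v)
  have a2 := abs_le.1 (junc_abs u t)
  have a3 := abs_le.1 (junc_abs (invRev t) v)
  rw [abs_le]; constructor <;> linarith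

lemma cnt_replicate (x : Lt) : ∀ n : ℕ, cnt (List.replicate n x) = 0
  | 0 => by simp [cnt]
  | 1 => by simp [cnt]
  | n + 2 => by
    have ih := cnt_replicate x (n + 1)
    have e : kap x x = 0 := by rcases x with ⟨_ | _, _ | _⟩ <;> simp [kap]
    simp only [List.replicate_succ, cnt] at ih ⊢
    rw [ih, e]; simp

lemma phi_of_pow (s : Bool) (n : ℕ) : phi (of s ^ n) = 0 := by
  unfold phi; rw [toWord_of_pow, cnt_replicate]

lemma pos_reduced (l : List Lt) (h : ∀ x ∈ l, x.2 = true) : IsReduced l := by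
  induction l with
  | nil => simp
  | cons x l ih =>
    cases l with
    | nil => simp
    | cons y l =>
      refine isReduced_cons_cons.2 ⟨fun _ => ?_, ih fun z hz => h z (List.mem_cons_of_mem _ hz)⟩
      rw [h x (by simp), h y (by simp)]

lemma junc_pos (u v : List Lt) (hu : ∀ x ∈ u, x.2 = true) : 0 ≤ junc u v := by
  unfold junc
  split
  · rename_i x y h1 h2
    have := hu x (List.mem_of_getLast? h1)
    rcases x with ⟨_ | _, _ | _⟩ <;> rcases y with ⟨_ | _, _ | _⟩ <;> simp [kap] at this ⊢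
  · simp

lemma phi_ab_pow (N M k : ℕ) :
    (k : ℤ) ≤ phi ((of true ^ (N + 1) * of false ^ (M + 1)) ^ k) := by
  set B : List Lt := List.replicate (N + 1) (true, true) ++ List.replicate (M + 1) (false, true)
    with hB
  have hBpos : ∀ x ∈ B, x.2 = true := by
    intro x hx
    rcases List.mem_append.1 hx with h | h <;> rw [List.eq_of_mem_replicate h]
  have hBc : cnt B = 1 := by
    rw [hB, cnt_append, cnt_replicate, cnt_replicate]
    simp [junc, List.getLast?_replicate, List.head?_replicate, kap]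
  have hmk : (of true ^ (N + 1) * of false ^ (M + 1) : F) = mk B := by
    rw [hB, ← mul_mk, ← toWord_of_pow, ← toWord_of_pow, mk_toWord, mk_toWord]
  have key : ∀ k : ℕ, ∃ l : List Lt, (∀ x ∈ l, x.2 = true) ∧ (mk B : F) ^ k = mk l ∧
      (k : ℤ) ≤ cnt l := by
    intro k
    induction k with
    | zero => exact ⟨[], by simp, by simp [one_eq_mk], by simp [cnt]⟩
    | succ k ih =>
      obtain ⟨l, h1, h2, h3⟩ := ih
      refine ⟨B ++ l, ?_, by rw [pow_succ', h2, mul_mk], ?_⟩
      · intro x hx
        rcases List.mem_append.1 hx with h | h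
        exacts [hBpos x h, h1 x h]
      · rw [cnt_append, hBc]
        have := junc_pos B l hBpos
        push_cast; linarith
  obtain ⟨l, h1, h2, h3⟩ := key k
  unfold phi
  rw [hmk, h2, toWord_mk, (pos_reduced l h1).reduce_eq]
  exact h3

lemma sep {w : Lt} {g h : F} (hg : g ∈ startsWith w) (hgh : g * h ∉ startsWith w) :
    g.norm ≤ h.norm ∧ (g * h).norm ≤ h.norm := by
  obtain ⟨u, t, v, h1, h2, h3⟩ := decomp_grp g h
  have hu : u = [] := by
    by_contra hu
    apply hgh
    obtain ⟨x, u, rfl⟩ := List.exists_cons_of_ne_nil hu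
    simp only [startsWith, Set.mem_ofPred_eq, h1, h3] at hg ⊢
    simpa using hg
  subst hu
  simp only [FreeGroup.norm, h1, h2, h3]
  simp

lemma norm_of_zpow (s : Bool) (k : ℤ) : (of s ^ k : F).norm = k.natAbs := by
  obtain ⟨n, rfl | rfl⟩ := k.eq_nat_or_neg
  · simp
  · simp

lemma pow_mem_sw (s : Bool) (n : ℕ) : (of s ^ (n + 1) : F) ∈ startsWith (s, true) := by
  simp [startsWith, toWord_of_pow]

lemma inv_pow_not_mem_sw (s : Bool) (n : ℕ) : ((of s ^ n)⁻¹ : F) ∉ startsWith (s, true) := by
  simp only [startsWith, Set.mem_ofPred_eq, toWord_inv, toWord_of_pow, invRev]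
  cases n <;> simp

lemma transversal (k l : ℤ) : k.natAbs ≤ ((of true ^ k)⁻¹ * of false ^ l : F).norm := by
  rcases eq_or_ne k 0 with rfl | hk
  · simp
  have h1 : ∃ c : Bool, (of true ^ k : F) ∈ startsWith (true, c) := by
    obtain ⟨n, rfl | rfl⟩ := k.eq_nat_or_neg
    · cases n with
      | zero => simp at hk
      | succ n => exact ⟨true, by rw [zpow_natCast]; exact pow_mem_sw true n⟩
    · cases n with
      | zero => simp at hk
      | succ n =>
        refine ⟨false, ?_⟩
        rw [zpow_neg, zpow_natCast]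
        simp [startsWith, toWord_inv, toWord_of_pow, invRev]
  obtain ⟨c, hc⟩ := h1
  have h2 : (of true ^ k * ((of true ^ k)⁻¹ * of false ^ l) : F) ∉ startsWith (true, c) := by
    rw [mul_inv_cancel_left]
    obtain ⟨n, rfl | rfl⟩ := l.eq_nat_or_neg
    · rw [zpow_natCast]
      cases n <;> simp [startsWith, toWord_of_pow]
    · rw [zpow_neg, zpow_natCast]
      cases n <;> simp [startsWith, toWord_inv, toWord_of_pow, invRev]
  have := (sep hc h2).1
  rwa [norm_of_zpow] at this

lemma finite_ball (n : ℕ) : {g : F | g.norm ≤ n}.Finite := by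
  refine ((List.finite_length_le Lt n).image (mk : List Lt → F)).subset ?_
  intro g hg
  exact ⟨g.toWord, hg, mk_toWord⟩

lemma nrm_tri (g h k : F) : (g⁻¹ * k).norm ≤ (g⁻¹ * h).norm + (h⁻¹ * k).norm := by
  have := norm_mul_le (g⁻¹ * h) (h⁻¹ * k)
  rwa [show g⁻¹ * h * (h⁻¹ * k) = g⁻¹ * k by group] at this

lemma nrm_symm (g h : F) : (g⁻¹ * h).norm = (h⁻¹ * g).norm := by
  rw [← norm_inv_eq]; congr 1; group

end Pool.Agent.H504Z.CT
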