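import Pool.Agent.H504Z.CT.Blow
import Pool.Agent.H504Z.CT.Defs

set_option autoImplicit false

namespace Pool.Agent.H504Z.CT

open FreeGroup

abbrev W : Type := F × (ℤ × ℤ)

noncomputable def jj (p : W) : V := (p.1, rho p.1 ((p.2.1 : ℝ), (p.2.2 : ℝ)))

noncomputable def rd (p : V) : W := (p.1, (⌊(rhoi p.1 p.2).1⌋, ⌊(rhoi p.1 p.2).2⌋))

lemma rd_jj (p : W) : rd (jj p) = p := by simp [rd, jj, rhoi_rho]

lemma N_rd (p : V) : N p.1 (p.2 - (jj (rd p)).2) ≤ 1 := by
  simp only [N, jj, rd]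
  rw [rhoi_sub, rhoi_rho, norm_P]
  simp only [Prod.fst_sub, Prod.snd_sub, Int.self_sub_floor]
  exact max_le (by rw [Int.abs_fract]; exact (Int.fract_lt_one _).le)
    (by rw [Int.abs_fract]; exact (Int.fract_lt_one _).le)

lemma bt_one : bt 1 = 48 := by norm_num [bt]

noncomputable def X : SimpleGraph W where
  Adj p q := p ≠ q ∧ (p.1⁻¹ * q.1).norm ≤ 1 ∧ N p.1 ((jj p).2 - (jj q).2) ≤ 49 ∧
    N q.1 ((jj p).2 - (jj q).2) ≤ 49
  symm := ⟨fun p q h => ⟨h.1.symm, by rw [nrm_symm]; exact h.2.1, by rw [N_sub_comm]; exact h.2.2.2,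
    by rw [N_sub_comm]; exact h.2.2.1⟩⟩
  loopless := ⟨fun p h => h.1 rfl⟩

lemma edist_le_one {p q : W} (h1 : (p.1⁻¹ * q.1).norm ≤ 1) (h2 : N p.1 ((jj p).2 - (jj q).2) ≤ 49)
    (h3 : N q.1 ((jj p).2 - (jj q).2) ≤ 49) : X.edist p q ≤ 1 := by
  rw [SimpleGraph.edist_le_one_iff_adj_or_eq]
  by_cases h : p = q
  · exact Or.inr h
  · exact Or.inl ⟨h, h1, h2, h3⟩

lemma N_jj (g : F) (m m' : ℤ × ℤ) : N g ((jj (g, m)).2 - (jj (g, m')).2) =
    max |(m.1 : ℝ) - m'.1| |(m.2 : ℝ) - m'.2| := by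
  simp only [jj]
  rw [← rho_sub, N_rho, norm_P]; rfl

lemma edist_line (g : F) (e : ℤ × ℤ) (he : |e.1| ≤ 1 ∧ |e.2| ≤ 1) (m : ℤ × ℤ) (n : ℕ) :
    X.edist (g, m) (g, m + n • e) ≤ n := by
  induction n with
  | zero => simp
  | succ n ih =>
    have h : N g ((jj (g, m + n • e)).2 - (jj (g, m + (n + 1) • e)).2) ≤ 49 := by
      rw [N_jj]
      have a : |(e.1 : ℝ)| ≤ 1 := by exact_mod_cast he.1
      have b : |(e.2 : ℝ)| ≤ 1 := by exact_mod_cast he.2
      refine max_le ?_ ?_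
      · rw [show (((m + n • e).1 : ℤ) : ℝ) - ((m + (n + 1) • e).1 : ℤ) = -(e.1 : ℝ) by
          simp; ring, abs_neg]; linarith
      · rw [show (((m + n • e).2 : ℤ) : ℝ) - ((m + (n + 1) • e).2 : ℤ) = -(e.2 : ℝ) by
          simp; ring, abs_neg]; linarith
    have := edist_le_one (p := (g, m + n • e)) (q := (g, m + (n + 1) • e)) (by simp) h h
    push_cast
    exact SimpleGraph.edist_triangle.trans (add_le_add ih this)

lemma edist_fib (g : F) (m m' : ℤ × ℤ) :
    X.edist (g, m) (g, m') ≤ (((m'.1 - m.1).natAbs + (m'.2 - m.2).natAbs : ℕ) : ℕ∞) := by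
  have sg : ∀ k : ℤ, |k.sign| ≤ 1 := fun k => by
    rcases lt_trichotomy k 0 with h | h | h
    · simp [Int.sign_eq_neg_one_of_neg h]
    · simp [h]
    · simp [Int.sign_eq_one_of_pos h]
  have a := edist_line g ((m'.1 - m.1).sign, 0) ⟨sg _, by simp⟩ m (m'.1 - m.1).natAbs
  have b := edist_line g (0, (m'.2 - m.2).sign) ⟨by simp, sg _⟩ (m'.1, m.2) (m'.2 - m.2).natAbs
  have e : ∀ k : ℤ, (k.natAbs : ℤ) * k.sign = k := fun k => by
    rw [mul_comm]; exact Int.sign_mul_natAbs k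
  rw [show m + (m'.1 - m.1).natAbs • ((m'.1 - m.1).sign, (0 : ℤ)) = (m'.1, m.2) by
    ext
    · rw [Prod.fst_add, Prod.smul_fst, nsmul_eq_mul, e]; ring
    · simp] at a
  rw [show ((m'.1, m.2) : ℤ × ℤ) + (m'.2 - m.2).natAbs • ((0 : ℤ), (m'.2 - m.2).sign) = m' by
    ext
    · simp
    · rw [Prod.snd_add, Prod.smul_snd, nsmul_eq_mul, e]; ring] at b
  push_cast
  exact SimpleGraph.edist_triangle.trans (add_le_add a b)

lemma edist_hor (x : P) : ∀ (l : List Lt) (g : F),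
    X.edist (rd (g, x)) (rd (g * mk l, x)) ≤ l.length := by
  intro l
  induction l with
  | nil => intro g; simp [← one_eq_mk]
  | cons s l ih =>
    intro g
    have h1 : (g⁻¹ * (g * mk [s])).norm ≤ 1 := by
      rw [inv_mul_cancel_left]; exact norm_mk_le
    have h2 : ((g * mk [s])⁻¹ * g).norm ≤ 1 := by rwa [nrm_symm]
    have a := N_rd (g, x)
    have b := N_rd (g * mk [s], x)
    have c := N_le h1 (x - (jj (rd (g * mk [s], x))).2)
    have d := N_le h2 (x - (jj (rd (g, x))).2)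
    rw [bt_one] at c d
    have step : X.edist (rd (g, x)) (rd (g * mk [s], x)) ≤ 1 := by
      refine edist_le_one h1 ?_ ?_
      · have := N_tri g (jj (rd (g, x))).2 x (jj (rd (g * mk [s], x))).2
        rw [N_sub_comm g _ x] at this
        show N g _ ≤ _
        dsimp only at a b
        linarith
      · have := N_tri (g * mk [s]) (jj (rd (g, x))).2 x (jj (rd (g * mk [s], x))).2
        rw [N_sub_comm (g * mk [s]) _ x] at this
        show N (g * mk [s]) _ ≤ _
        dsimp only at a b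
        linarith
    have := ih (g * mk [s])
    rw [mul_assoc, mul_mk, List.singleton_append] at this
    rw [List.length_cons, add_comm]
    push_cast
    exact SimpleGraph.edist_triangle.trans (add_le_add step this)

lemma edist_hor' (g h : F) (x : P) : X.edist (rd (g, x)) (rd (h, x)) ≤ (g⁻¹ * h).norm := by
  have := edist_hor x (g⁻¹ * h).toWord g
  rwa [mk_toWord, mul_inv_cancel_left] at this

lemma X_conn : X.Connected := by
  refine { preconnected := fun p q => ?_ }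
  rw [← SimpleGraph.edist_ne_top_iff_reachable]
  have a := edist_hor' p.1 q.1 (jj p).2
  have b := edist_fib q.1 (rd (q.1, (jj p).2)).2 q.2
  rw [show rd (p.1, (jj p).2) = p from rd_jj p] at a
  exact ne_top_of_le_ne_top (by simp) (SimpleGraph.edist_triangle.trans (add_le_add a b))

lemma dist_le_of_edist {p q : W} {n : ℕ} (h : X.edist p q ≤ n) : X.dist p q ≤ n := by
  rw [← (X_conn.preconnected p q).coe_dist_eq_edist] at h
  exact_mod_cast h

lemma walk_bound {p q : W} (w : X.Walk p q) : (p.1⁻¹ * q.1).norm ≤ w.length ∧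
    N p.1 ((jj p).2 - (jj q).2) ≤ 49 * 49 ^ w.length := by
  induction w with
  | nil => simp [N_zero]
  | @cons a b c h w ih =>
    obtain ⟨-, h1, h2, -⟩ := h
    rw [SimpleGraph.Walk.length_cons]
    refine ⟨by have := nrm_tri a.1 b.1 c.1; omega, ?_⟩
    have a1 := N_tri a.1 (jj a).2 (jj b).2 (jj c).2
    have a2 := N_le h1 ((jj b).2 - (jj c).2)
    rw [bt_one] at a2
    have a3 : (1 : ℝ) ≤ 49 ^ w.length := one_le_pow₀ (by norm_num)
    rw [pow_succ]
    linarith [ih.2]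

noncomputable def dd (p q : V) : ℕ := X.dist (rd p) (rd q)

lemma dd_jj (p q : W) : dd (jj p) (jj q) = X.dist p q := by rw [dd, rd_jj, rd_jj]

lemma model : Model dd (fun n => 1 + 49 * 49 ^ n + bt n) where
  symm p q := SimpleGraph.dist_comm
  tri p q r := X_conn.dist_triangle
  m1 p q := by
    obtain ⟨w, hw⟩ := X_conn.exists_walk_length_eq_dist (rd p) (rd q)
    have := (walk_bound w).1
    rwa [hw] at this
  m2 g x y t h := by
    refine (dist_le_of_edist (edist_fib g _ _)).trans ?_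
    rw [N, rhoi_sub, norm_P] at h
    have h1 := abs_le.1 ((le_max_left _ _).trans h)
    have h2 := abs_le.1 ((le_max_right _ _).trans h)
    simp only [Prod.fst_sub, Prod.snd_sub] at h1 h2
    have fl : ∀ a b : ℝ, -t ≤ a - b ∧ a - b ≤ t → (((⌊b⌋ - ⌊a⌋).natAbs : ℕ) : ℝ) ≤ t + 1 := by
      intro a b hab
      rw [Nat.cast_natAbs]
      push_cast
      have i1 := Int.floor_le a
      have i2 := Int.lt_floor_add_one a
      have i3 := Int.floor_le b
      have i4 := Int.lt_floor_add_one b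
      rw [abs_le]; constructor <;> linarith [hab.1, hab.2]
    have a := fl _ _ h1
    have b := fl _ _ h2
    have : (((((rd (g, y)).2.1 - (rd (g, x)).2.1).natAbs +
        ((rd (g, y)).2.2 - (rd (g, x)).2.2).natAbs : ℕ)) : ℝ) ≤ 2 * t + 2 := by
      simp only [rd]; push_cast; linarith
    exact_mod_cast this.trans (Nat.le_ceil _)
  m3 g h x := dist_le_of_edist (edist_hor' g h x)
  m4 p q n h := by
    obtain ⟨w, hw⟩ := X_conn.exists_walk_length_eq_dist (rd p) (rd q)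
    obtain ⟨a, b⟩ := walk_bound w
    have hn : w.length ≤ n := hw ▸ h
    have c : (49 : ℝ) ^ w.length ≤ 49 ^ n := pow_le_pow_right₀ (by norm_num) hn
    have a1 := N_rd p
    have a2 := N_rd q
    have a3 := N_le (g := p.1) (h := q.1) (a.trans hn) (q.2 - (jj (rd q)).2)
    have a4 := N_tri p.1 p.2 (jj (rd p)).2 q.2
    have a5 := N_tri p.1 (jj (rd p)).2 (jj (rd q)).2 q.2
    rw [N_sub_comm p.1 (jj (rd q)).2 q.2] at a5
    have a6 := bt_pos n
    have b' : N p.1 ((jj (rd p)).2 - (jj (rd q)).2) ≤ 49 * 49 ^ w.length := b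
    nlinarith

lemma X_locFin (p : W) : (X.neighborSet p).Finite := by
  have h1 : {h : F | (p.1⁻¹ * h).norm ≤ 1}.Finite := by
    refine ((finite_ball 1).image (fun k => p.1 * k)).subset fun h hh => ⟨p.1⁻¹ * h, hh, by simp⟩
  have h2 : ∀ (a : ℝ), {m : ℤ | |a - m| ≤ 49}.Finite := by
    intro a
    refine (Set.finite_Icc (⌊a⌋ - 49) (⌊a⌋ + 50)).subset fun m hm => ?_
    have := abs_le.1 (show |a - m| ≤ 49 from hm)
    have i1 := Int.floor_le a
    have i2 := Int.lt_floor_add_one a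
    constructor
    · have : (⌊a⌋ : ℝ) - 49 ≤ m := by linarith
      exact_mod_cast this
    · have : (m : ℝ) ≤ ⌊a⌋ + 50 := by linarith
      exact_mod_cast this
  refine (h1.biUnion (t := fun h => (fun m : ℤ × ℤ => ((h, m) : W)) ''
    ({m : ℤ | |(rhoi h (jj p).2).1 - m| ≤ 49} ×ˢ {m : ℤ | |(rhoi h (jj p).2).2 - m| ≤ 49}))
    fun h _ => ((h2 _).prod (h2 _)).image _).subset ?_
  rintro ⟨h, m⟩ ⟨-, a, -, b⟩
  simp only [Set.mem_iUnion]
  refine ⟨h, a, m, ?_, rfl⟩
  have e : rhoi h ((jj p).2 - (jj (h, m)).2) = rhoi h (jj p).2 - ((m.1 : ℝ), (m.2 : ℝ)) := by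
    rw [rhoi_sub]; simp only [jj, rhoi_rho]
  simp only [N] at b
  rw [e, norm_P] at b
  exact ⟨(le_max_left _ _).trans b, (le_max_right _ _).trans b⟩

lemma lip_of_adj {A B : Type*} {Y : SimpleGraph A} {Z : SimpleGraph B} (hY : Y.Connected)
    (hZ : Z.Connected) (θ : A → B) (c : ℕ) (h : ∀ p q, Y.Adj p q → Z.dist (θ p) (θ q) ≤ c)
    (p q : A) : Z.dist (θ p) (θ q) ≤ c * Y.dist p q := by
  obtain ⟨w, hw⟩ := hY.exists_walk_length_eq_dist p q
  rw [← hw]
  clear hw
  induction w with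
  | nil => simp
  | @cons a b e hab w ih =>
    have := hZ.dist_triangle (u := θ a) (v := θ b) (w := θ e)
    have := h a b hab
    rw [SimpleGraph.Walk.length_cons, mul_add]
    omega

lemma move_lip (k : F) (Θ : P → P) (h : ∀ u x y, N (k * u) (Θ x - Θ y) ≤ 8 * N u (x - y))
    (p q : W) : X.dist (rd (k * p.1, Θ (jj p).2)) (rd (k * q.1, Θ (jj q).2)) ≤
      787 * X.dist p q := by
  refine lip_of_adj X_conn X_conn (fun p : W => rd (k * p.1, Θ (jj p).2)) 787 ?_ p q
  rintro p q ⟨-, h1, h2, -⟩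
  have a : N (k * p.1) (Θ (jj p).2 - Θ (jj q).2) ≤ 392 := by linarith [h p.1 (jj p).2 (jj q).2]
  have b : ((k * p.1)⁻¹ * (k * q.1)).norm ≤ 1 := by
    rwa [show (k * p.1)⁻¹ * (k * q.1) = p.1⁻¹ * q.1 by group]
  have := model.d2 a b
  norm_num at this
  exact this

lemma move_back (k : F) (Θ Θ' : P → P) (h : ∀ u x y, N (k⁻¹ * u) (Θ' x - Θ' y) ≤ 8 * N u (x - y))
    (hi : ∀ x, Θ' (Θ x) = x) (p : W) :
    X.dist p (rd (k⁻¹ * (rd (k * p.1, Θ (jj p).2)).1,
      Θ' (jj (rd (k * p.1, Θ (jj p).2))).2)) ≤ 18 := by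
  have a := N_rd (k * p.1, Θ (jj p).2)
  have b := h (k * p.1) (Θ (jj p).2) (jj (rd (k * p.1, Θ (jj p).2))).2
  rw [hi, inv_mul_cancel_left] at b
  have c := model.m2 p.1 (jj p).2 (Θ' (jj (rd (k * p.1, Θ (jj p).2))).2) 8 (by
    dsimp only at a; linarith)
  norm_num at c
  rw [dd, show rd (p.1, (jj p).2) = p from rd_jj p] at c
  rw [show k⁻¹ * (rd (k * p.1, Θ (jj p).2)).1 = p.1 from inv_mul_cancel_left _ _]
  exact c

lemma X_ct : CoarselyTransitive X := by
  refine ⟨787, 36, by norm_num, by norm_num, fun p q => ?_⟩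
  set k := q.1 * p.1⁻¹ with hk
  set b := (jj q).2 - rho k (jj p).2 with hb
  set Θ : P → P := fun x => rho k x + b with hΘ
  set Θ' : P → P := fun x => rhoi k (x - b) with hΘ'
  have i1 : ∀ x, Θ' (Θ x) = x := fun x => by simp [hΘ, hΘ', rhoi_rho]
  have i2 : ∀ x, Θ (Θ' x) = x := fun x => by simp [hΘ, hΘ', rho_rhoi]
  have l1 : ∀ u x y, N (k * u) (Θ x - Θ y) ≤ 8 * N u (x - y) := by
    intro u x y
    simp only [hΘ]
    rw [add_sub_add_right_eq_sub, ← rho_sub]
    exact (N_mul_rho k u _).1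
  have l2 : ∀ u x y, N (k⁻¹ * u) (Θ' x - Θ' y) ≤ 8 * N u (x - y) := by
    intro u x y
    have := (N_mul_rho k (k⁻¹ * u) (Θ' x - Θ' y)).2
    rw [mul_inv_cancel_left] at this
    have e : Θ' x - Θ' y = rhoi k (x - y) := by
      simp only [hΘ']
      rw [← rhoi_sub, sub_sub_sub_cancel_right]
    rw [e] at this ⊢
    rwa [rho_rhoi] at this
  refine ⟨fun z => rd (k * z.1, Θ (jj z).2), ⟨fun x x' => ⟨?_, ?_⟩, fun y => ?_⟩, ?_⟩
  · have a1 := move_back k Θ Θ' l2 i1 x
    have a2 := move_back k Θ Θ' l2 i1 x'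
    have a3 := move_lip k⁻¹ Θ' l2 (rd (k * x.1, Θ (jj x).2)) (rd (k * x'.1, Θ (jj x').2))
    rw [SimpleGraph.dist_comm] at a2
    have a4 := (X_conn.dist_triangle (u := x) (w := x')).trans
      (add_le_add a1 (X_conn.dist_triangle.trans (add_le_add a3 a2)))
    have a5 : (X.dist x x' : ℝ) ≤ 18 + (787 * X.dist (rd (k * x.1, Θ (jj x).2))
      (rd (k * x'.1, Θ (jj x').2)) + 18) := by exact_mod_cast a4
    have : (0 : ℝ) ≤ X.dist (rd (k * x.1, Θ (jj x).2)) (rd (k * x'.1, Θ (jj x').2)) :=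
      Nat.cast_nonneg _
    linarith
  · have a : (X.dist (rd (k * x.1, Θ (jj x).2)) (rd (k * x'.1, Θ (jj x').2)) : ℝ) ≤
      787 * X.dist x x' := by exact_mod_cast move_lip k Θ l1 x x'
    linarith
  · refine ⟨rd (k⁻¹ * y.1, Θ' (jj y).2), ?_⟩
    have a := move_back k⁻¹ Θ' Θ (by simpa using l1) i2 y
    rw [inv_inv] at a
    have : (18 : ℝ) ≤ 36 := by norm_num
    exact le_trans (by exact_mod_cast a) this
  · show rd (k * p.1, Θ (jj p).2) = q
    rw [show k * p.1 = q.1 by rw [hk]; group, show Θ (jj p).2 = (jj q).2 by simp [hΘ, hb]]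
    exact rd_jj q

lemma iso_dist {B : Type*} {Y : SimpleGraph B} (hY : Y.Connected) (γ : Y ≃g Y) (u v : B) :
    Y.dist (γ u) (γ v) ≤ Y.dist u v := by
  have := lip_of_adj hY hY γ 1 (fun p q h =>
    (SimpleGraph.dist_eq_one_iff_adj.2 (γ.map_rel_iff.2 h)).le) u v
  rwa [one_mul] at this

theorem X_not_qi {B : Type*} (Y : SimpleGraph B) (hY : Y.Connected) (hT : VertexTransitive Y) :
    ¬ QuasiIsometric X Y := by
  rintro ⟨K, C, α, hK, hC, h1, h2⟩
  choose β hβ using h2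
  obtain ⟨k, hk⟩ := exists_nat_ge (K + C)
  have hkK : K ≤ k := by linarith
  have hkC : C ≤ k := by linarith
  have A1 : ∀ x x', Y.dist (α x) (α x') ≤ k * X.dist x x' + k := by
    intro x x'
    have a := (h1 x x').2
    have b : K * (X.dist x x' : ℝ) ≤ k * X.dist x x' := by gcongr
    have : (Y.dist (α x) (α x') : ℝ) ≤ k * X.dist x x' + k := by linarith
    exact_mod_cast this
  have A2 : ∀ x x', X.dist x x' ≤ k * (Y.dist (α x) (α x') + k) := by
    intro x x'
    have a := (h1 x x').1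
    rw [sub_le_iff_le_add, inv_mul_le_iff₀ (by linarith)] at a
    have : (X.dist x x' : ℝ) ≤ k * (Y.dist (α x) (α x') + k) := a.trans (by gcongr)
    exact_mod_cast this
  have A3 : ∀ y, Y.dist y (α (β y)) ≤ k := fun y => by exact_mod_cast (hβ y).trans hkC
  have A4 : ∀ y y', X.dist (β y) (β y') ≤ k * (Y.dist y y' + 3 * k) := by
    intro y y'
    refine (A2 _ _).trans ?_
    have a := A3 y
    have b := A3 y'
    rw [SimpleGraph.dist_comm] at a
    have c := hY.dist_triangle (u := α (β y)) (v := y) (w := α (β y'))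
    have d := hY.dist_triangle (u := y) (v := y') (w := α (β y'))
    exact Nat.mul_le_mul_left _ (by omega)
  have A5 : ∀ x, X.dist (β (α x)) x ≤ k * (2 * k) := by
    intro x
    refine (A2 _ _).trans ?_
    have a := A3 (α x)
    rw [SimpleGraph.dist_comm] at a
    exact Nat.mul_le_mul_left _ (by omega)
  refine action_false model (G := Y ≃g Y) (fun γ p => jj (β (γ (α (rd p))))) (k * (4 * k))
    (fun γ p q => ?_) (fun γ δ p => ?_) (fun p => ?_) (fun p => ?_)
  · rw [dd_jj]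
    refine (A4 _ _).trans ?_
    have a := (iso_dist hY γ _ _).trans (A1 (rd p) (rd q))
    calc _ ≤ k * (k * dd p q + k + 3 * k) := Nat.mul_le_mul_left _ (Nat.add_le_add_right a _)
      _ ≤ _ := by nlinarith [Nat.zero_le (k * k * dd p q)]
  · rw [dd_jj, rd_jj]
    refine (A4 _ _).trans ?_
    have a := iso_dist hY γ (α (β (δ (α (rd p))))) (δ (α (rd p)))
    have b := A3 (δ (α (rd p)))
    rw [SimpleGraph.dist_comm] at b
    exact Nat.mul_le_mul_left _ (by
      have : Y.dist (γ (α (β (δ (α (rd p)))))) ((γ * δ) (α (rd p))) ≤ k := a.trans b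
      omega)
  · rw [dd, rd_jj]
    exact (A5 (rd p)).trans (Nat.mul_le_mul_left _ (by omega))
  · obtain ⟨γ, hγ⟩ := hT (α (rd (1, 0))) (α (rd p))
    refine ⟨γ, ?_⟩
    rw [dd, rd_jj, hγ]
    exact (A5 (rd p)).trans (Nat.mul_le_mul_left _ (by omega))

end Pool.Agent.H504Z.CT
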