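import Pool.Agent.H504Z.CT.Free

set_option autoImplicit false

namespace Pool.Agent.H504Z.CT

open FreeGroup

abbrev P : Type := ℝ × ℝ

def st : Lt → P → P
  | (true, true), v => (v.1 + 2 * v.2, v.2)
  | (true, false), v => (v.1 - 2 * v.2, v.2)
  | (false, true), v => (v.1, v.2 + 2 * v.1)
  | (false, false), v => (v.1, v.2 - 2 * v.1)

def eqv (s : Bool) : P ≃ₗ[ℝ] P where
  toFun := st (s, true)
  invFun := st (s, false)
  map_add' u v := by cases s <;> simp [st] <;> ring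
  map_smul' c v := by cases s <;> simp [st] <;> ring
  left_inv v := by cases s <;> simp [st]
  right_inv v := by cases s <;> simp [st]

noncomputable def rb : F →* (P ≃ₗ[ℝ] P) := FreeGroup.lift eqv

lemma rb_mul (g h : F) (v : P) : rb (g * h) v = rb g (rb h v) := by rw [_root_.map_mul]; rfl

lemma rb_one (v : P) : rb 1 v = v := by rw [_root_.map_one]; rfl

lemma rb_inv_cancel (g : F) (v : P) : rb g⁻¹ (rb g v) = v := by
  rw [← rb_mul, inv_mul_cancel, rb_one]

lemma rb_cancel_inv (g : F) (v : P) : rb g (rb g⁻¹ v) = v := by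
  rw [← rb_mul, mul_inv_cancel, rb_one]

lemma rb_single (x : Lt) (v : P) : rb (mk [x]) v = st x v := by
  rcases x with ⟨s, _ | _⟩
  · have : (mk [(s, false)] : F) = (of s)⁻¹ := by simp [of, inv_mk, invRev]
    rw [this, _root_.map_inv]
    simp only [rb, lift_apply_of]
    rfl
  · have : (mk [(s, true)] : F) = of s := rfl
    rw [this]
    simp only [rb, lift_apply_of]
    rfl

lemma rb_cons (x : Lt) (l : List Lt) (v : P) : rb (mk (x :: l)) v = st x (rb (mk l) v) := by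
  rw [← rb_single, ← rb_mul, mul_mk]; rfl

lemma rb_nil (v : P) : rb (mk []) v = v := rb_one v

lemma rb_of (s : Bool) (v : P) : rb (of s) v = st (s, true) v := rb_single _ v

lemma rb_of_inv (s : Bool) (v : P) : rb (of s)⁻¹ v = st (s, false) v := by
  have : (mk [(s, false)] : F) = (of s)⁻¹ := by simp [of, inv_mk, invRev]
  rw [← this, rb_single]

lemma norm_P (v : P) : ‖v‖ = max |v.1| |v.2| := by simp [Prod.norm_def]

lemma st_norm (x : Lt) (v : P) : ‖st x v‖ ≤ 3 * ‖v‖ := by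
  have h1 : |v.1| ≤ ‖v‖ := by rw [norm_P]; exact le_max_left _ _
  have h2 : |v.2| ≤ ‖v‖ := by rw [norm_P]; exact le_max_right _ _
  have h1' := abs_le.1 h1
  have h2' := abs_le.1 h2
  rw [norm_P (st x v)]
  rcases x with ⟨_ | _, _ | _⟩ <;> simp only [st] <;> refine max_le ?_ ?_ <;> rw [abs_le] <;>
    constructor <;> linarith [norm_nonneg v]

lemma rb_norm (g : F) (v : P) : ‖rb g v‖ ≤ 3 ^ g.norm * ‖v‖ := by
  have key : ∀ l : List Lt, ‖rb (mk l) v‖ ≤ 3 ^ l.length * ‖v‖ := by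
    intro l
    induction l with
    | nil => simp [rb_nil]
    | cons x l ih =>
      rw [rb_cons, List.length_cons, pow_succ]
      have := st_norm x (rb (mk l) v)
      linarith
  have := key g.toWord
  rwa [mk_toWord] at this

def IsInt (v : P) : Prop := ∃ m n : ℤ, v = ((m : ℝ), (n : ℝ))

lemma rb_isInt (g : F) {v : P} (hv : IsInt v) : IsInt (rb g v) := by
  have key : ∀ l : List Lt, IsInt (rb (mk l) v) := by
    intro l
    induction l with
    | nil => simpa [rb_nil] using hv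
    | cons x l ih =>
      rw [rb_cons]
      obtain ⟨m, n, h⟩ := ih
      rw [h]
      rcases x with ⟨_ | _, _ | _⟩
      · exact ⟨m, n - 2 * m, by simp [st]⟩
      · exact ⟨m, n + 2 * m, by simp [st]⟩
      · exact ⟨m - 2 * n, n, by simp [st]⟩
      · exact ⟨m + 2 * n, n, by simp [st]⟩
  have := key g.toWord
  rwa [mk_toWord] at this

lemma one_le_norm {v : P} (hv : IsInt v) (h0 : v ≠ 0) : 1 ≤ ‖v‖ := by
  obtain ⟨m, n, rfl⟩ := hv
  rw [norm_P]
  by_cases hm : m = 0
  · have hn : n ≠ 0 := by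
      rintro rfl
      subst hm
      simp at h0
    refine le_max_of_le_right ?_
    show (1 : ℝ) ≤ |(n : ℝ)|
    exact_mod_cast Int.one_le_abs hn
  · refine le_max_of_le_left ?_
    show (1 : ℝ) ≤ |(m : ℝ)|
    exact_mod_cast Int.one_le_abs hm

lemma one_le_rb (g : F) {v : P} (hv : IsInt v) (h0 : v ≠ 0) : 1 ≤ ‖rb g v‖ :=
  one_le_norm (rb_isInt g hv) (by simpa using h0)

def om (u v : P) : ℝ := u.1 * v.2 - u.2 * v.1

lemma om_rb (g : F) (u v : P) : om (rb g u) (rb g v) = om u v := by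
  have key : ∀ l : List Lt, om (rb (mk l) u) (rb (mk l) v) = om u v := by
    intro l
    induction l with
    | nil => simp [rb_nil]
    | cons x l ih =>
      rw [rb_cons, rb_cons, ← ih]
      rcases x with ⟨_ | _, _ | _⟩ <;> simp only [st, om] <;> ring
  have := key g.toWord
  rwa [mk_toWord] at this

lemma om_abs (u v : P) : |om u v| ≤ 2 * (‖u‖ * ‖v‖) := by
  have h1 : |u.1| ≤ ‖u‖ := by rw [norm_P]; exact le_max_left _ _
  have h2 : |u.2| ≤ ‖u‖ := by rw [norm_P]; exact le_max_right _ _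
  have h3 : |v.1| ≤ ‖v‖ := by rw [norm_P]; exact le_max_left _ _
  have h4 : |v.2| ≤ ‖v‖ := by rw [norm_P]; exact le_max_right _ _
  have a := abs_sub (u.1 * v.2) (u.2 * v.1)
  rw [abs_mul, abs_mul] at a
  have b1 := mul_le_mul h1 h4 (abs_nonneg _) (norm_nonneg _)
  have b2 := mul_le_mul h2 h3 (abs_nonneg _) (norm_nonneg _)
  unfold om; linarith

/-! ### ping-pong -/

def Reg : Lt → P → ℝ → Prop
  | (true, true), v, c => (1 ≤ v.2 ∧ v.2 + 1 ≤ v.1 ∧ c ≤ v.1 + v.2) ∨
      (v.2 ≤ -1 ∧ v.1 ≤ v.2 - 1 ∧ c ≤ -v.1 - v.2)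
  | (true, false), v, c => (1 ≤ v.2 ∧ v.1 ≤ -v.2 - 1 ∧ c ≤ -v.1 + v.2) ∨
      (v.2 ≤ -1 ∧ -v.2 + 1 ≤ v.1 ∧ c ≤ v.1 - v.2)
  | (false, true), v, c => (1 ≤ v.1 ∧ v.1 + 1 ≤ v.2 ∧ c ≤ v.1 + v.2) ∨
      (v.1 ≤ -1 ∧ v.2 ≤ v.1 - 1 ∧ c ≤ -v.1 - v.2)
  | (false, false), v, c => (1 ≤ v.1 ∧ v.2 ≤ -v.1 - 1 ∧ c ≤ v.1 - v.2) ∨
      (v.1 ≤ -1 ∧ -v.1 + 1 ≤ v.2 ∧ c ≤ -v.1 + v.2)

lemma reg_step (s r : Lt) (v : P) (c : ℝ) (h : s.1 = r.1 → s.2 = r.2) (hr : Reg r v c) :
    Reg s (st s v) (c + 1) := by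
  rcases s with ⟨_ | _, _ | _⟩ <;> rcases r with ⟨_ | _, _ | _⟩ <;>
    simp only [Reg, st] at hr ⊢ <;>
    first
    | (exfalso; revert h; decide)
    | (rcases hr with ⟨h1, h2, h3⟩ | ⟨h1, h2, h3⟩ <;>
        first
        | (left; refine ⟨?_, ?_, ?_⟩ <;> linarith)
        | (right; refine ⟨?_, ?_, ?_⟩ <;> linarith))

lemma reg_le (r : Lt) (v : P) (c : ℝ) (hr : Reg r v c) : c ≤ 2 * ‖v‖ := by
  have h1 : |v.1| ≤ ‖v‖ := by rw [norm_P]; exact le_max_left _ _
  have h2 : |v.2| ≤ ‖v‖ := by rw [norm_P]; exact le_max_right _ _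
  have h1' := abs_le.1 h1
  have h2' := abs_le.1 h2
  rcases r with ⟨_ | _, _ | _⟩ <;> simp only [Reg] at hr <;>
    rcases hr with ⟨h1, h2, h3⟩ | ⟨h1, h2, h3⟩ <;> linarith

lemma reg_word (r : Lt) (v : P) (c : ℝ) (hr : Reg r v c) : ∀ l : List Lt, IsReduced (l ++ [r]) →
    ∃ r', (l ++ [r]).head? = some r' ∧ Reg r' (rb (mk l) v) (c + l.length) := by
  intro l
  induction l with
  | nil => intro _; exact ⟨r, by simp, by simpa [rb_nil] using hr⟩
  | cons x l ih =>
    intro h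
    obtain ⟨r', h1, h2⟩ := ih (List.IsChain.right_of_append (l₁ := [x]) (l₂ := l ++ [r]) h)
    obtain ⟨t, ht⟩ : ∃ t, l ++ [r] = r' :: t := by
      cases e : l ++ [r] with
      | nil => simp at e
      | cons y t => rw [e] at h1; simp at h1; exact ⟨t, by rw [h1]⟩
    have h3 : x.1 = r'.1 → x.2 = r'.2 := by
      rw [List.cons_append, ht] at h
      exact (isReduced_cons_cons.1 h).1
    refine ⟨x, by simp, ?_⟩
    rw [rb_cons]
    have := reg_step x r' _ _ h3 h2
    simpa [add_assoc] using this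

lemma norm_le_of_rb (g : F) (K : ℝ) (h : ∀ v, ‖rb g v‖ ≤ K * ‖v‖) : (g.norm : ℝ) ≤ 4 * K := by
  have hred : IsReduced g.toWord := isReduced_toWord
  have hr : ∃ r v, IsReduced (g.toWord ++ [r]) ∧ Reg r v 3 ∧ ‖v‖ = 2 := by
    rcases List.eq_nil_or_concat g.toWord with e | ⟨u, x, e⟩
    · refine ⟨(true, true), (2, 1), by simp [e], by simp [Reg]; norm_num, by simp⟩
    · rw [e] at hred ⊢
      by_cases hx : x.1 = true
      · refine ⟨(false, true), (1, 2), ?_, by simp [Reg]; norm_num, by simp⟩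
        have := IsReduced.append_overlap (L₁ := u) (L₂ := [x]) (L₃ := [(false, true)])
          (by simpa using hred) (by simp [hx]) (by simp)
        simpa using this
      · refine ⟨(true, true), (2, 1), ?_, by simp [Reg]; norm_num, by simp⟩
        have := IsReduced.append_overlap (L₁ := u) (L₂ := [x]) (L₃ := [(true, true)])
          (by simpa using hred) (by simp [hx]) (by simp)
        simpa using this
  obtain ⟨r, v, h1, h2, h3⟩ := hr
  obtain ⟨r', -, h4⟩ := reg_word r v 3 h2 _ h1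
  have h5 := reg_le _ _ _ h4
  rw [mk_toWord] at h5
  have h6 := h v
  rw [h3] at h6
  unfold FreeGroup.norm
  linarith

/-! ### descent -/

def Good (ε : ℝ) (v : P) : Prop := ∀ k : F, ε ≤ ‖rb k v‖

lemma Good.rb {ε : ℝ} {v : P} (h : Good ε v) (g : F) : Good ε (rb g v) := fun k => by
  rw [← rb_mul]; exact h _

lemma Good.st {ε : ℝ} {v : P} (h : Good ε v) (x : Lt) : Good ε (st x v) := by
  rw [← rb_single]; exact h.rb _

lemma Good.neg {ε : ℝ} {v : P} (h : Good ε v) : Good ε (-v) := fun k => by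
  rw [map_neg, norm_neg]; exact h k

lemma Good.le {ε : ℝ} {v : P} (h : Good ε v) : ε ≤ ‖v‖ := by
  have := h 1; rwa [rb_one] at this

lemma shear_iter {ε : ℝ} (lam : P → ℝ) (p : P) (hl : ∀ v (t : ℝ), lam (v + t • p) = lam v)
    (h1 : ∀ v, Good ε v → Good ε (v + (2 * lam v) • p))
    (h2 : ∀ v, Good ε v → Good ε (v + (-(2 * lam v)) • p)) (v : P) (hv : Good ε v) (m : ℤ) :
    Good ε (v + (2 * m * lam v) • p) := by
  induction m using Int.induction_on with
  | zero => simpa using hv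
  | succ m ih =>
    have := h1 _ ih
    rw [hl, add_assoc, ← add_smul] at this
    convert this using 3; push_cast; ring
  | pred m ih =>
    have := h2 _ ih
    rw [hl, add_assoc, ← add_smul] at this
    convert this using 3; push_cast; ring

lemma exists_mult (x d : ℝ) (hd : d ≠ 0) : ∃ m : ℤ, |x + 2 * m * d| ≤ |d| := by
  refine ⟨-round (x / (2 * d)), ?_⟩
  have h := abs_sub_round (x / (2 * d))
  have e : x + 2 * ((-round (x / (2 * d)) : ℤ) : ℝ) * d
      = (2 * d) * (x / (2 * d) - round (x / (2 * d))) := by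
    push_cast; field_simp; ring
  rw [e, abs_mul, abs_mul, abs_two]
  have := abs_nonneg d
  nlinarith

lemma Good.snd {ε : ℝ} {v : P} (h : Good ε v) (h0 : v.2 ≠ 0) : ε ≤ |v.2| := by
  obtain ⟨m, hm⟩ := exists_mult v.1 v.2 h0
  have := (shear_iter (ε := ε) (fun v => v.2) (1, 0) (by simp) (fun v hv => by
    convert hv.st (true, true) using 1; ext <;> simp [CT.st]) (fun v hv => by
    convert hv.st (true, false) using 1; ext <;> simp [CT.st]; ring) v h m).le
  rw [norm_P] at this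
  simp only [Prod.fst_add, Prod.smul_fst, smul_eq_mul, mul_one, Prod.snd_add, Prod.smul_snd,
    mul_zero, add_zero] at this
  exact this.trans (max_le hm le_rfl)

lemma Good.fst {ε : ℝ} {v : P} (h : Good ε v) (h0 : v.1 ≠ 0) : ε ≤ |v.1| := by
  obtain ⟨m, hm⟩ := exists_mult v.2 v.1 h0
  have := (shear_iter (ε := ε) (fun v => v.1) (0, 1) (by simp) (fun v hv => by
    convert hv.st (false, true) using 1; ext <;> simp [CT.st]) (fun v hv => by
    convert hv.st (false, false) using 1; ext <;> simp [CT.st]; ring) v h m).le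
  rw [norm_P] at this
  simp only [Prod.fst_add, Prod.smul_fst, smul_eq_mul, mul_one, Prod.snd_add, Prod.smul_snd,
    mul_zero, add_zero] at this
  exact this.trans (max_le le_rfl hm)

lemma Good.sub {ε : ℝ} {v : P} (h : Good ε v) (h0 : v.1 - v.2 ≠ 0) : ε ≤ 2 * |v.1 - v.2| := by
  obtain ⟨m, hm⟩ := exists_mult v.2 (v.1 - v.2) h0
  have := (shear_iter (ε := ε) (fun v => v.1 - v.2) (1, 1) (by simp) (fun v hv => by
    convert ((hv.st (false, false)).st (true, true)).neg using 1; ext <;> simp [CT.st] <;> ring)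
    (fun v hv => by
    convert ((hv.st (true, false)).st (false, true)).neg using 1; ext <;> simp [CT.st] <;> ring)
    v h m).le
  rw [norm_P] at this
  simp only [Prod.fst_add, Prod.smul_fst, smul_eq_mul, mul_one, Prod.snd_add, Prod.smul_snd] at this
  refine this.trans (max_le ?_ ?_)
  · have := abs_add_le (v.2 + 2 * m * (v.1 - v.2)) (v.1 - v.2)
    rw [show v.2 + 2 * m * (v.1 - v.2) + (v.1 - v.2) = v.1 + 2 * m * (v.1 - v.2) by ring] at this
    linarith
  · linarith [abs_nonneg (v.1 - v.2)]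

lemma Good.add {ε : ℝ} {v : P} (h : Good ε v) (h0 : v.1 + v.2 ≠ 0) : ε ≤ 2 * |v.1 + v.2| := by
  obtain ⟨m, hm⟩ := exists_mult v.1 (v.1 + v.2) h0
  have := (shear_iter (ε := ε) (fun v => v.1 + v.2) (1, -1) (by intro v t; simp; ring)
    (fun v hv => by
    convert ((hv.st (false, true)).st (true, false)).neg using 1; ext <;> simp [CT.st] <;> ring)
    (fun v hv => by
    convert ((hv.st (true, true)).st (false, false)).neg using 1; ext <;> simp [CT.st] <;> ring)
    v h m).le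
  rw [norm_P] at this
  simp only [Prod.fst_add, Prod.smul_fst, smul_eq_mul, mul_one, Prod.snd_add, Prod.smul_snd] at this
  refine this.trans (max_le ?_ ?_)
  · linarith [abs_nonneg (v.1 + v.2)]
  · have := abs_sub (v.1 + v.2) (v.1 + 2 * m * (v.1 + v.2))
    rw [show v.1 + v.2 - (v.1 + 2 * m * (v.1 + v.2)) = v.2 + 2 * m * (v.1 + v.2) * (-1) by ring]
      at this
    linarith

def base : Set P := {(1, 0), (0, 1), (1, 1), (1, -1)}

lemma descent {ε : ℝ} (hε : 0 < ε) : ∀ (n : ℕ) (v : P), Good ε v → |v.1| + |v.2| ≤ n * ε →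
    ∃ k : F, k.norm ≤ n ∧ ∃ p ∈ base, ∃ t : ℝ, rb k v = t • p := by
  intro n
  induction n with
  | zero =>
    intro v hv h
    have := hv.le
    rw [norm_P] at this
    have h1 := abs_nonneg v.1
    have h2 := abs_nonneg v.2
    have : max |v.1| |v.2| ≤ 0 := max_le (by simp at h; linarith) (by simp at h; linarith)
    linarith
  | succ n ih =>
    intro v hv h
    by_cases h1 : v.1 = 0
    · exact ⟨1, by simp, (0, 1), by simp [base], v.2, by rw [rb_one]; ext <;> simp [h1]⟩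
    by_cases h2 : v.2 = 0
    · exact ⟨1, by simp, (1, 0), by simp [base], v.1, by rw [rb_one]; ext <;> simp [h2]⟩
    by_cases h3 : v.1 - v.2 = 0
    · exact ⟨1, by simp, (1, 1), by simp [base], v.1, by
        rw [rb_one]; ext <;> simp; linarith⟩
    by_cases h4 : v.1 + v.2 = 0
    · exact ⟨1, by simp, (1, -1), by simp [base], v.1, by
        rw [rb_one]; ext <;> simp; linarith⟩
    have a1 := hv.fst h1
    have a2 := hv.snd h2
    have a3 := hv.sub h3
    have a4 := hv.add h4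
    have step : ∃ x : Lt, |(st x v).1| + |(st x v).2| ≤ n * ε := by
      push_cast at h
      rcases le_total |v.2| |v.1| with c | c
      · rcases le_total 0 (v.1 * v.2) with d | d
        · refine ⟨(true, false), ?_⟩
          simp only [st]
          cases abs_cases v.1 <;> cases abs_cases v.2 <;> cases abs_cases (v.1 - v.2) <;>
            cases abs_cases (v.1 - 2 * v.2) <;> first | linarith | nlinarith
        · refine ⟨(true, true), ?_⟩
          simp only [st]
          cases abs_cases v.1 <;> cases abs_cases v.2 <;> cases abs_cases (v.1 + v.2) <;>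
            cases abs_cases (v.1 + 2 * v.2) <;> first | linarith | nlinarith
      · rcases le_total 0 (v.1 * v.2) with d | d
        · refine ⟨(false, false), ?_⟩
          simp only [st]
          cases abs_cases v.1 <;> cases abs_cases v.2 <;> cases abs_cases (v.1 - v.2) <;>
            cases abs_cases (v.2 - 2 * v.1) <;> first | linarith | nlinarith
        · refine ⟨(false, true), ?_⟩
          simp only [st]
          cases abs_cases v.1 <;> cases abs_cases v.2 <;> cases abs_cases (v.1 + v.2) <;>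
            cases abs_cases (v.2 + 2 * v.1) <;> first | linarith | nlinarith
    obtain ⟨x, hx⟩ := step
    obtain ⟨k, hk, p, hp, t, ht⟩ := ih _ (hv.st x) hx
    refine ⟨k * mk [x], ?_, p, hp, t, by rw [rb_mul, rb_single, ht]⟩
    have := norm_mul_le k (mk [x])
    have h5 : (mk [x] : F).norm ≤ 1 := norm_mk_le
    omega

def dirs (n : ℕ) : Set P := {q | ∃ k : F, k.norm ≤ n ∧ ∃ p ∈ base, q = rb k⁻¹ p}

lemma dirs_finite (n : ℕ) : (dirs n).Finite := by
  have hb : base.Finite := by unfold base; exact Set.toFinite _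
  refine (((finite_ball n).prod hb).image (fun z : F × P => rb z.1⁻¹ z.2)).subset ?_
  rintro q ⟨k, hk, p, hp, rfl⟩
  exact ⟨(k, p), ⟨hk, hp⟩, rfl⟩

lemma mem_dirs {ε : ℝ} (hε : 0 < ε) (n : ℕ) (v : P) (hv : Good ε v) (h : 2 * ‖v‖ ≤ n * ε) :
    ∃ q ∈ dirs n, ∃ t : ℝ, v = t • q := by
  have h1 : |v.1| ≤ ‖v‖ := by rw [norm_P]; exact le_max_left _ _
  have h2 : |v.2| ≤ ‖v‖ := by rw [norm_P]; exact le_max_right _ _
  obtain ⟨k, hk, p, hp, t, ht⟩ := descent hε n v hv (by linarith)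
  refine ⟨rb k⁻¹ p, ⟨k, hk, p, hp, rfl⟩, t, ?_⟩
  rw [← map_smul, ← ht, rb_inv_cancel]

/-! ### the norms -/

noncomputable def sc (g : F) : ℝ := (2 : ℝ) ^ phi g

lemma sc_pos (g : F) : 0 < sc g := zpow_pos two_pos _

lemma sc_one : sc 1 = 1 := by simp [sc, phi_one]

noncomputable def rho (g : F) (v : P) : P := sc g • rb g v

noncomputable def rhoi (g : F) (v : P) : P := (sc g)⁻¹ • rb g⁻¹ v

lemma rhoi_rho (g : F) (v : P) : rhoi g (rho g v) = v := by
  simp only [rhoi, rho, map_smul, rb_inv_cancel, smul_smul, inv_mul_cancel₀ (sc_pos g).ne',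
    one_smul]

lemma rho_rhoi (g : F) (v : P) : rho g (rhoi g v) = v := by
  simp only [rhoi, rho, map_smul, rb_cancel_inv, smul_smul, mul_inv_cancel₀ (sc_pos g).ne',
    one_smul]

lemma rhoi_sub (g : F) (u v : P) : rhoi g (u - v) = rhoi g u - rhoi g v := by
  simp [rhoi, smul_sub]

lemma rhoi_add (g : F) (u v : P) : rhoi g (u + v) = rhoi g u + rhoi g v := by
  simp [rhoi]

lemma rho_sub (g : F) (u v : P) : rho g (u - v) = rho g u - rho g v := by
  simp [rho, smul_sub]

noncomputable def N (g : F) (v : P) : ℝ := ‖rhoi g v‖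

lemma N_eq (g : F) (v : P) : N g v = (sc g)⁻¹ * ‖rb g⁻¹ v‖ := by
  rw [N, rhoi, norm_smul, Real.norm_eq_abs, abs_of_pos (inv_pos.2 (sc_pos g))]

lemma N_nonneg (g : F) (v : P) : 0 ≤ N g v := norm_nonneg _

lemma N_zero (g : F) : N g 0 = 0 := by simp [N, rhoi]

lemma N_add (g : F) (u v : P) : N g (u + v) ≤ N g u + N g v := by
  rw [N, rhoi_add]; exact norm_add_le _ _

lemma N_smul (g : F) (c : ℝ) (v : P) : N g (c • v) = |c| * N g v := by
  rw [N_eq, N_eq, map_smul, norm_smul, Real.norm_eq_abs]; ring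

lemma N_sub_comm (g : F) (u v : P) : N g (u - v) = N g (v - u) := by
  rw [N, N, rhoi_sub, rhoi_sub, norm_sub_rev]

lemma N_tri (g : F) (u v w : P) : N g (u - w) ≤ N g (u - v) + N g (v - w) := by
  have := N_add g (u - v) (v - w)
  rwa [sub_add_sub_cancel] at this

lemma N_one (v : P) : N 1 v = ‖v‖ := by rw [N_eq, sc_one, inv_one, inv_one, rb_one, one_mul]

lemma N_rho (g : F) (v : P) : N g (rho g v) = ‖v‖ := by rw [N, rhoi_rho]

lemma continuous_rb (g : F) : Continuous (rb g) :=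
  (rb g).toLinearMap.continuous_of_finiteDimensional

lemma continuous_N (g : F) : Continuous (N g) :=
  ((continuous_rb g⁻¹).const_smul (sc g)⁻¹).norm

lemma continuous_rho (g : F) : Continuous (rho g) := (continuous_rb g).const_smul (sc g)

lemma sc_le (g h : F) : sc h ≤ 8 * 2 ^ (g⁻¹ * h).norm * sc g := by
  have h1 := abs_le.1 (phi_mul g (g⁻¹ * h))
  rw [mul_inv_cancel_left] at h1
  have h2 := abs_le.1 (phi_abs (g⁻¹ * h))
  have : phi h ≤ 3 + ((g⁻¹ * h).norm : ℤ) + phi g := by linarith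
  calc sc h ≤ (2 : ℝ) ^ (3 + ((g⁻¹ * h).norm : ℤ) + phi g) := zpow_le_zpow_right₀ one_le_two this
    _ = _ := by rw [zpow_add₀ two_ne_zero, zpow_add₀ two_ne_zero, zpow_natCast, sc]; norm_num

noncomputable def bt (n : ℕ) : ℝ := 8 * 6 ^ n

lemma bt_pos (n : ℕ) : 0 < bt n := by unfold bt; positivity

lemma one_le_bt (n : ℕ) : 1 ≤ bt n := by
  unfold bt; have : (1 : ℝ) ≤ 6 ^ n := one_le_pow₀ (by norm_num); linarith

lemma N_le {g h : F} {n : ℕ} (hn : (g⁻¹ * h).norm ≤ n) (v : P) : N g v ≤ bt n * N h v := by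
  rw [N_eq, N_eq]
  have e : rb g⁻¹ v = rb (g⁻¹ * h) (rb h⁻¹ v) := by rw [← rb_mul]; congr 2; group
  have h1 := rb_norm (g⁻¹ * h) (rb h⁻¹ v)
  rw [← e] at h1
  have h2 := sc_le g h
  have hg := sc_pos g
  have hh := sc_pos h
  have h3 : (sc g)⁻¹ ≤ 8 * 2 ^ (g⁻¹ * h).norm * (sc h)⁻¹ := by
    rw [inv_le_comm₀ hg (by positivity), mul_inv, inv_inv, inv_mul_le_iff₀ (by positivity)]
    exact h2
  have h4 : (6 : ℝ) ^ (g⁻¹ * h).norm ≤ 6 ^ n := pow_le_pow_right₀ (by norm_num) hn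
  calc (sc g)⁻¹ * ‖rb g⁻¹ v‖ ≤ (8 * 2 ^ (g⁻¹ * h).norm * (sc h)⁻¹) *
        (3 ^ (g⁻¹ * h).norm * ‖rb h⁻¹ v‖) := by gcongr
    _ = 8 * 6 ^ (g⁻¹ * h).norm * ((sc h)⁻¹ * ‖rb h⁻¹ v‖) := by
        rw [show (6 : ℝ) = 2 * 3 by norm_num, mul_pow]; ring
    _ ≤ _ := by unfold bt; gcongr

lemma sc_mul_le (k u : F) : sc k * sc u ≤ 8 * sc (k * u) ∧ sc (k * u) ≤ 8 * (sc k * sc u) := by
  have h1 := abs_le.1 (phi_mul k u)
  unfold sc
  rw [← zpow_add₀ two_ne_zero, show (8 : ℝ) = 2 ^ (3 : ℤ) by norm_num, ← zpow_add₀ two_ne_zero,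
    ← zpow_add₀ two_ne_zero]
  exact ⟨zpow_le_zpow_right₀ one_le_two (by linarith), zpow_le_zpow_right₀ one_le_two (by linarith)⟩

lemma N_mul_rho (k u : F) (v : P) : N (k * u) (rho k v) ≤ 8 * N u v ∧
    N u v ≤ 8 * N (k * u) (rho k v) := by
  have e : N (k * u) (rho k v) = (sc (k * u))⁻¹ * sc k * ‖rb u⁻¹ v‖ := by
    rw [N_eq, rho, map_smul, norm_smul, ← rb_mul, Real.norm_eq_abs, abs_of_pos (sc_pos k),
      show (k * u)⁻¹ * k = u⁻¹ by group, mul_assoc]
  rw [e, N_eq]
  obtain ⟨h1, h2⟩ := sc_mul_le k u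
  have a := sc_pos k
  have b := sc_pos u
  have c := sc_pos (k * u)
  have n := norm_nonneg (rb u⁻¹ v)
  constructor
  · rw [← mul_assoc]
    refine mul_le_mul_of_nonneg_right ?_ n
    rw [inv_mul_le_iff₀ c, ← mul_assoc, le_mul_inv_iff₀ b]; linarith
  · rw [← mul_assoc]
    refine mul_le_mul_of_nonneg_right ?_ n
    rw [inv_le_iff_one_le_mul₀ b, show 8 * ((sc (k * u))⁻¹ * sc k) * sc u
      = (sc (k * u))⁻¹ * (8 * (sc k * sc u)) by ring, le_inv_mul_iff₀ c]
    linarith

end Pool.Agent.H504Z.CT
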